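import Pool.Agent.V7H7.TR.Main

set_option autoImplicit false

/-! # The numbers of ones -/

namespace Pool.Agent.V7H7.TR

open Finset

/-- the number of ones among the first `n` binary digits of `x` after the point -/
noncomputable def onesR (x : ℝ) (n : ℕ) : ℕ :=
  ((range n).filter fun k => ⌊x * (2 : ℝ) ^ (k + 1)⌋ % 2 = 1).card

lemma onesR_eq (x : ℝ) (n : ℕ) : onesR x n = cnt 2 x (1 / 2) 1 n := by
  unfold onesR cnt
  congr 1
  apply filter_congr
  intro k _
  obtain ⟨z, hz⟩ : ∃ z : ℝ, z = x * ((2 : ℕ) : ℝ) ^ k := ⟨_, rfl⟩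
  have e : x * (2 : ℝ) ^ (k + 1) = 2 * z := by rw [hz]; push_cast; ring
  rw [e, ← hz]
  have h1 := Int.self_sub_floor z
  have h2 := Int.floor_le z
  have h3 := Int.lt_floor_add_one z
  constructor
  · intro h
    refine ⟨?_, Int.fract_lt_one _⟩
    by_contra hlt
    rw [not_le, ← h1] at hlt
    have : ⌊2 * z⌋ = 2 * ⌊z⌋ := by
      rw [Int.floor_eq_iff]; push_cast
      constructor <;> linarith
    omega
  · rintro ⟨h, _⟩
    rw [← h1] at h
    have : ⌊2 * z⌋ = 2 * ⌊z⌋ + 1 := by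
      rw [Int.floor_eq_iff]; push_cast
      constructor <;> linarith
    omega

lemma onesR_of_disc (x : ℝ) (n : ℕ) (ε : ℝ) (h : Disc 2 x n ε) :
    |(onesR x n : ℝ) - n / 2| ≤ ε * n := by
  have h1 := h (1 / 2) 1 (by norm_num) (by norm_num) le_rfl
  rw [onesR_eq]
  have e : ((1 : ℝ) - 1 / 2) * n = n / 2 := by ring
  rwa [e] at h1

end Pool.Agent.V7H7.TR
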