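import Mathlib

set_option autoImplicit false

/-! # The order of `b` modulo integers composed of given primes -/

namespace Pool.Agent.V7H7.TR

open Finset

theorem val_bound (p b : ℕ) (hp : p.Prime) (hb : ¬ p ∣ b) (hb2 : 2 ≤ b) :
    ∃ c : ℕ, ∀ d : ℕ, 0 < d → padicValNat p (b ^ d - 1) ≤ c + padicValNat p d := by
  have := Fact.mk hp
  rcases hp.eq_two_or_odd' with rfl | hodd
  · refine ⟨padicValNat 2 (b + 1) + padicValNat 2 (b - 1), fun d hd => ?_⟩
    have h1 : padicValNat 2 (b ^ (2 * d) - 1) + 1 =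
        padicValNat 2 (b + 1) + padicValNat 2 (b - 1) + padicValNat 2 (2 * d) :=
      padicValNat.pow_two_sub_one (by omega) hb (by omega) (even_two_mul d)
    have h2 : padicValNat 2 (2 * d) = 1 + padicValNat 2 d := by
      rw [padicValNat.mul (by norm_num) hd.ne']; simp
    have h3 : b ^ d - 1 ∣ b ^ (2 * d) - 1 := by
      rw [mul_comm, pow_mul]
      simpa using Nat.sub_dvd_pow_sub_pow (b ^ d) 1 2
    have h4 : b ^ (2 * d) - 1 ≠ 0 := by
      have : 1 < b ^ (2 * d) := Nat.one_lt_pow (by omega) (by omega)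
      omega
    have h5 : padicValNat 2 (b ^ d - 1) ≤ padicValNat 2 (b ^ (2 * d) - 1) := by
      apply (padicValNat_dvd_iff_le h4).1
      exact pow_padicValNat_dvd.trans h3
    omega
  · obtain ⟨x, hx⟩ : ∃ x : ℕ, x = b ^ (p - 1) := ⟨_, rfl⟩
    have hp1 : 1 < p := hp.one_lt
    have hx1 : 1 < x := by
      rw [hx]; exact Nat.one_lt_pow (by omega) (by omega)
    have hdvd : p ∣ x - 1 := by
      have h1 : x ≡ 1 [MOD p] := by
        rw [hx]
        have h2 : Nat.Coprime b p := ((Nat.Prime.coprime_iff_not_dvd hp).2 hb).symm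
        have := Nat.ModEq.pow_totient h2
        rwa [Nat.totient_prime hp] at this
      exact (Nat.modEq_iff_dvd' hx1.le).1 h1.symm
    have hxp : ¬ p ∣ x := by
      intro h
      have := (Nat.dvd_sub_iff_right hx1.le h).1 hdvd
      exact hp.one_lt.ne' (Nat.dvd_one.1 this)
    refine ⟨padicValNat p (x - 1), fun d hd => ?_⟩
    have h1 : padicValNat p (x ^ d - 1 ^ d) = padicValNat p (x - 1) + padicValNat p d :=
      padicValNat.pow_sub_pow hodd hx1 hdvd hxp hd.ne'
    rw [one_pow] at h1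
    have h2 : b ^ d - 1 ∣ x ^ d - 1 := by
      rw [hx, ← pow_mul, mul_comm, pow_mul]
      simpa using Nat.sub_dvd_pow_sub_pow (b ^ d) 1 (p - 1)
    have h3 : x ^ d - 1 ≠ 0 := by
      have : 1 < x ^ d := Nat.one_lt_pow hd.ne' hx1
      omega
    have h5 : padicValNat p (b ^ d - 1) ≤ padicValNat p (x ^ d - 1) := by
      apply (padicValNat_dvd_iff_le h3).1
      exact pow_padicValNat_dvd.trans h2
    omega

/-- If `m` is composed of the primes of `P` and divides `b ^ d - 1`, then `m ≤ C d`. -/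
theorem smooth_bound (b : ℕ) (hb2 : 2 ≤ b) (P : Finset ℕ) (hP : ∀ p ∈ P, p.Prime ∧ ¬ p ∣ b) :
    ∃ C : ℕ, 0 < C ∧ ∀ m d : ℕ, 0 < m → 0 < d → m.primeFactors ⊆ P → m ∣ b ^ d - 1 → m ≤ C * d := by
  classical
  have hex : ∀ p : ℕ, ∃ c : ℕ, p ∈ P → ∀ d : ℕ, 0 < d →
      padicValNat p (b ^ d - 1) ≤ c + padicValNat p d := by
    intro p
    by_cases hp : p ∈ P
    · obtain ⟨c, hc⟩ := val_bound p b (hP p hp).1 (hP p hp).2 hb2
      exact ⟨c, fun _ => hc⟩
    · exact ⟨0, fun h => absurd h hp⟩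
  choose c hc using hex
  have hCpos : 0 < ∏ p ∈ P, p ^ c p := prod_pos fun p hp => pow_pos (hP p hp).1.pos _
  refine ⟨∏ p ∈ P, p ^ c p, hCpos, fun m d hm hd hmP hmd => ?_⟩
  have hCd : (∏ p ∈ P, p ^ c p) * d ≠ 0 := (Nat.mul_pos hCpos hd).ne'
  apply Nat.le_of_dvd (Nat.pos_of_ne_zero hCd)
  rw [← Nat.factorization_le_iff_dvd hm.ne' hCd]
  intro p
  by_cases hp : p ∈ P
  · have hpp := (hP p hp).1
    have := Fact.mk hpp
    have h1 : b ^ d - 1 ≠ 0 := by
      have : 1 < b ^ d := Nat.one_lt_pow hd.ne' (by omega)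
      omega
    have h2 : m.factorization p ≤ padicValNat p (b ^ d - 1) := by
      rw [Nat.factorization_def _ hpp]
      exact (padicValNat_dvd_iff_le h1).1 (pow_padicValNat_dvd.trans hmd)
    have h3 := hc p hp d hd
    have h4 : c p ≤ (∏ q ∈ P, q ^ c q).factorization p := by
      apply (hpp.pow_dvd_iff_le_factorization hCpos.ne').1
      exact dvd_prod_of_mem (fun q => q ^ c q) hp
    rw [Nat.factorization_mul hCpos.ne' hd.ne']
    rw [Finsupp.add_apply, Nat.factorization_def d hpp]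
    omega
  · have : m.factorization p = 0 := by
      rw [Nat.factorization_eq_zero_iff]
      by_contra hcon
      push Not at hcon
      exact hp (hmP (Nat.mem_primeFactors.2 ⟨hcon.1, hcon.2.1, hcon.2.2⟩))
    rw [this]
    exact Nat.zero_le _

end Pool.Agent.V7H7.TR
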