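import Pool.Agent.V7H7.TR.Moment

set_option autoImplicit false

/-! # Discrepancy, windows of scales, rational multiples -/

namespace Pool.Agent.V7H7.TR

open Finset

/-- The discrepancy of `b ^ k y` modulo one, `k < n`, is at most `ε`. -/
def Disc (b : ℕ) (y : ℝ) (n : ℕ) (ε : ℝ) : Prop :=
  ∀ α β : ℝ, 0 ≤ α → α ≤ β → β ≤ 1 → |(cnt b y α β n : ℝ) - (β - α) * n| ≤ ε * n

lemma cnt_le (b : ℕ) (y α β : ℝ) (n : ℕ) : cnt b y α β n ≤ n := by
  unfold cnt
  refine (card_filter_le _ _).trans ?_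
  rw [card_range]

lemma cnt_mono (b : ℕ) (y : ℝ) {α α' β β' : ℝ} (h1 : α' ≤ α) (h2 : β ≤ β') (n : ℕ) :
    cnt b y α β n ≤ cnt b y α' β' n := by
  unfold cnt
  apply card_le_card
  intro k hk
  rw [mem_filter] at hk ⊢
  exact ⟨hk.1, h1.trans hk.2.1, hk.2.2.trans_le h2⟩

lemma cnt_add (b : ℕ) (y : ℝ) {α γ β : ℝ} (h1 : α ≤ γ) (h2 : γ ≤ β) (n : ℕ) :
    cnt b y α β n = cnt b y α γ n + cnt b y γ β n := by
  unfold cnt
  rw [← card_union_of_disjoint]
  · congr 1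
    ext k
    rw [mem_union, mem_filter, mem_filter, mem_filter]
    constructor
    · rintro ⟨h, h3, h4⟩
      rcases lt_or_ge (Int.fract (y * (b : ℝ) ^ k)) γ with h5 | h5
      · exact Or.inl ⟨h, h3, h5⟩
      · exact Or.inr ⟨h, h5, h4⟩
    · rintro (⟨h, h3, h4⟩ | ⟨h, h3, h4⟩)
      · exact ⟨h, h3, h4.trans_le h2⟩
      · exact ⟨h, h1.trans h3, h4⟩
  · rw [disjoint_left]
    intro k h3 h4
    rw [mem_filter] at h3 h4
    exact absurd h3.2.2 (not_lt.2 h4.2.1)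

lemma cnt_full (b : ℕ) (y : ℝ) (n : ℕ) : cnt b y 0 1 n = n := by
  unfold cnt
  rw [filter_true_of_mem, card_range]
  intro k _
  exact ⟨Int.fract_nonneg _, Int.fract_lt_one _⟩

lemma disc_of_large (b : ℕ) (y : ℝ) (n : ℕ) (ε : ℝ) (hε : 1 ≤ ε) : Disc b y n ε := by
  intro α β h0 h1 h2
  have h3 : (cnt b y α β n : ℝ) ≤ n := by exact_mod_cast cnt_le b y α β n
  have h4 : (0 : ℝ) ≤ cnt b y α β n := by positivity
  have hn : (0 : ℝ) ≤ n := by positivity
  have h5 : (β - α) * n ≤ n := by nlinarith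
  have h6 : 0 ≤ (β - α) * n := mul_nonneg (by linarith) hn
  have h7 : (n : ℝ) ≤ ε * n := by nlinarith
  rw [abs_le]
  constructor <;> linarith

/-- it is enough to have upper bounds for the half-lines with end points in a grid -/
lemma disc_of_grid (b : ℕ) (y : ℝ) (n G : ℕ) (ε : ℝ) (hε : 0 < ε) (hG : 4 / ε ≤ G)
    (h1 : ∀ i ≤ G, (cnt b y 0 (i / G) n : ℝ) ≤ (i / G - 0 + ε / 4) * n)
    (h2 : ∀ i ≤ G, (cnt b y (i / G) 1 n : ℝ) ≤ (1 - i / G + ε / 4) * n) : Disc b y n ε := by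
  have hn : (0 : ℝ) ≤ n := by positivity
  have hG0 : (0 : ℝ) < G := lt_of_lt_of_le (by positivity) hG
  have hG1 : 1 / (G : ℝ) ≤ ε / 4 := by
    rw [div_le_iff₀ hε] at hG
    rw [div_le_iff₀ hG0]
    linarith
  have hup : ∀ γ : ℝ, 0 ≤ γ → γ ≤ 1 → (cnt b y 0 γ n : ℝ) ≤ (γ + ε / 2) * n := by
    intro γ h3 h4
    have h5 : ⌈γ * G⌉₊ ≤ G := by
      apply Nat.ceil_le.2
      nlinarith
    have h6 := h1 _ h5
    have h7 : γ ≤ (⌈γ * G⌉₊ : ℝ) / G := by
      rw [le_div_iff₀ hG0]; exact Nat.le_ceil _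
    have h8 : (⌈γ * G⌉₊ : ℝ) / G ≤ γ + 1 / G := by
      rw [div_le_iff₀ hG0]
      have := Nat.ceil_lt_add_one (mul_nonneg h3 hG0.le)
      have e : (γ + 1 / (G : ℝ)) * G = γ * G + 1 := by field_simp
      rw [e]; exact this.le
    have h9 : (cnt b y 0 γ n : ℝ) ≤ cnt b y 0 ((⌈γ * G⌉₊ : ℝ) / G) n := by
      exact_mod_cast cnt_mono b y le_rfl h7 n
    have h10 : ((⌈γ * G⌉₊ : ℝ) / G - 0 + ε / 4) * n ≤ (γ + ε / 2) * n :=
      mul_le_mul_of_nonneg_right (by linarith) hn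
    linarith
  have hup2 : ∀ γ : ℝ, 0 ≤ γ → γ ≤ 1 → (cnt b y γ 1 n : ℝ) ≤ (1 - γ + ε / 2) * n := by
    intro γ h3 h4
    have h5 : ⌊γ * G⌋₊ ≤ G := by
      have : ((⌊γ * G⌋₊ : ℕ) : ℝ) ≤ G := (Nat.floor_le (mul_nonneg h3 hG0.le)).trans (by nlinarith)
      exact_mod_cast this
    have h6 := h2 _ h5
    have h7 : (⌊γ * G⌋₊ : ℝ) / G ≤ γ := by
      rw [div_le_iff₀ hG0]; exact Nat.floor_le (mul_nonneg h3 hG0.le)
    have h8 : γ - 1 / G ≤ (⌊γ * G⌋₊ : ℝ) / G := by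
      rw [le_div_iff₀ hG0]
      have := Nat.lt_floor_add_one (γ * G)
      have e : (γ - 1 / (G : ℝ)) * G = γ * G - 1 := by field_simp
      rw [e]; linarith
    have h9 : (cnt b y γ 1 n : ℝ) ≤ cnt b y ((⌊γ * G⌋₊ : ℝ) / G) 1 n := by
      exact_mod_cast cnt_mono b y h7 le_rfl n
    have h10 : (1 - (⌊γ * G⌋₊ : ℝ) / G + ε / 4) * n ≤ (1 - γ + ε / 2) * n :=
      mul_le_mul_of_nonneg_right (by linarith) hn
    linarith
  have hlow : ∀ γ : ℝ, 0 ≤ γ → γ ≤ 1 → (γ - ε / 2) * n ≤ (cnt b y 0 γ n : ℝ) := by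
    intro γ h3 h4
    have h5 := hup2 γ h3 h4
    have h6 : (cnt b y 0 γ n : ℝ) + cnt b y γ 1 n = n := by
      have := cnt_add b y h3 h4 n
      rw [cnt_full] at this
      exact_mod_cast this.symm
    nlinarith
  intro α β h3 h4 h5
  have h6 : (cnt b y 0 β n : ℝ) = cnt b y 0 α n + cnt b y α β n := by
    exact_mod_cast cnt_add b y h3 h4 n
  have h7 := hup β (h3.trans h4) h5
  have h8 := hlow β (h3.trans h4) h5
  have h9 := hup α h3 (h4.trans h5)
  have h10 := hlow α h3 (h4.trans h5)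
  rw [abs_le]
  constructor <;> nlinarith

/-- **Few exceptional translates, at one scale.** -/
theorem exceptional (b : ℕ) (hb2 : 2 ≤ b) (P : Finset ℕ) (hP : ∀ p ∈ P, p.Prime ∧ ¬ p ∣ b) :
    ∃ K : ℝ, 0 < K ∧ ∀ (ξ : ℝ) (m n : ℕ) (ε : ℝ), 0 < m → m.primeFactors ⊆ P → m ≤ n → 0 < ε →
      (Set.ncard {j : ℕ | j < m ∧ ¬ Disc b (ξ + j / m) n ε} : ℝ) ≤ K / ε ^ 5 := by
  classical
  obtain ⟨C, hC, hCm⟩ := smooth_bound b hb2 P hP
  refine ⟨12 * 256 * (1024 * C ^ 2 + 12), by positivity, fun ξ m n ε hm hmP hn hε => ?_⟩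
  have hset : {j : ℕ | j < m ∧ ¬ Disc b (ξ + j / m) n ε} =
      ((range m).filter fun j : ℕ => ¬ Disc b (ξ + j / m) n ε : Finset ℕ) := by
    ext j; simp
  rw [hset, Set.ncard_coe_finset]
  rcases le_or_gt 1 ε with h1 | h1
  · have : ((range m).filter fun j : ℕ => ¬ Disc b (ξ + j / m) n ε) = ∅ := by
      rw [filter_eq_empty_iff]
      intro j _ h2
      exact h2 (disc_of_large b _ n ε h1)
    rw [this, card_empty, Nat.cast_zero]
    positivity
  have hne : NeZero m := ⟨hm.ne'⟩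
  have hco : Nat.Coprime b m := by
    rw [Nat.coprime_comm]
    apply Nat.Coprime.symm
    apply Nat.coprime_of_dvd
    intro p hp hpb hpm
    exact (hP p (hmP (Nat.mem_primeFactors.2 ⟨hp, hpm, hm.ne'⟩))).2 hpb
  have hCm' : ∀ m' d : ℕ, 0 < m' → 0 < d → m' ∣ m → m' ∣ b ^ d - 1 → m' ≤ C * d := by
    intro m' d h2 h3 h4 h5
    exact hCm m' d h2 h3 ((Nat.primeFactors_mono h4 hm.ne').trans hmP) h5
  obtain ⟨G, hG⟩ : ∃ G : ℕ, G = ⌈4 / ε⌉₊ := ⟨_, rfl⟩
  have hG1 : 4 / ε ≤ G := by rw [hG]; exact Nat.le_ceil _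
  have hG2 : (G : ℝ) + 1 ≤ 6 / ε := by
    have h2 : (G : ℝ) < 4 / ε + 1 := by rw [hG]; exact Nat.ceil_lt_add_one (by positivity)
    have h3 : (1 : ℝ) ≤ 1 / ε := by rw [le_div_iff₀ hε]; linarith
    have : (6 : ℝ) / ε = 4 / ε + 1 / ε + 1 / ε := by ring
    linarith
  have hsub : ((range m).filter fun j : ℕ => ¬ Disc b (ξ + j / m) n ε) ⊆
      ((range (G + 1)).biUnion fun i => (range m).filter fun j : ℕ =>
        ((i : ℝ) / G - 0 + ε / 4) * n < (cnt b (ξ + j / m) 0 (i / G) n : ℝ)) ∪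
      ((range (G + 1)).biUnion fun i => (range m).filter fun j : ℕ =>
        (1 - (i : ℝ) / G + ε / 4) * n < (cnt b (ξ + j / m) (i / G) 1 n : ℝ)) := by
    intro j hj
    rw [mem_filter] at hj
    by_contra hcon
    rw [mem_union, not_or] at hcon
    apply hj.2
    apply disc_of_grid b _ n G ε hε hG1
    · intro i hi
      by_contra hlt
      apply hcon.1
      rw [mem_biUnion]
      exact ⟨i, mem_range.2 (by omega), mem_filter.2 ⟨hj.1, not_le.1 hlt⟩⟩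
    · intro i hi
      by_contra hlt
      apply hcon.2
      rw [mem_biUnion]
      exact ⟨i, mem_range.2 (by omega), mem_filter.2 ⟨hj.1, not_le.1 hlt⟩⟩
  have hK : ∀ α β : ℝ, α ≤ β → (((range m).filter fun j : ℕ =>
      (β - α + ε / 4) * n < (cnt b (ξ + j / m) α β n : ℝ)).card : ℝ) ≤
      (1024 * C ^ 2 + 12) / (ε / 4) ^ 4 := fun α β hαβ =>
    upper_count hco hb2 C hC hCm' n hn ξ α β (ε / 4) hαβ (by positivity) (by linarith)
  have hG0 : (0 : ℝ) < G := lt_of_lt_of_le (by positivity) hG1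
  have hi1 : ∀ i ∈ range (G + 1), (i : ℝ) / G ≤ 1 := by
    intro i hi
    rw [div_le_one hG0]
    have := mem_range.1 hi
    exact_mod_cast (by omega : i ≤ G)
  have h2 := (card_le_card hsub).trans (card_union_le _ _)
  have h3 : (((range m).filter fun j : ℕ => ¬ Disc b (ξ + j / m) n ε).card : ℝ) ≤
      ((∑ i ∈ range (G + 1), ((range m).filter fun j : ℕ =>
        ((i : ℝ) / G - 0 + ε / 4) * n < (cnt b (ξ + j / m) 0 (i / G) n : ℝ)).card : ℕ) : ℝ) +
      ((∑ i ∈ range (G + 1), ((range m).filter fun j : ℕ =>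
        (1 - (i : ℝ) / G + ε / 4) * n < (cnt b (ξ + j / m) (i / G) 1 n : ℝ)).card : ℕ) : ℝ) := by
    have h4 := h2.trans (Nat.add_le_add card_biUnion_le card_biUnion_le)
    exact_mod_cast h4
  refine h3.trans ?_
  push_cast
  have h5 : ∑ i ∈ range (G + 1), (((range m).filter fun j : ℕ =>
        ((i : ℝ) / G - 0 + ε / 4) * n < (cnt b (ξ + j / m) 0 (i / G) n : ℝ)).card : ℝ) ≤
      ∑ i ∈ range (G + 1), (1024 * C ^ 2 + 12) / (ε / 4) ^ 4 :=
    sum_le_sum fun i _ => hK 0 (i / G) (by positivity)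
  have h6 : ∑ i ∈ range (G + 1), (((range m).filter fun j : ℕ =>
        (1 - (i : ℝ) / G + ε / 4) * n < (cnt b (ξ + j / m) (i / G) 1 n : ℝ)).card : ℝ) ≤
      ∑ i ∈ range (G + 1), (1024 * C ^ 2 + 12) / (ε / 4) ^ 4 :=
    sum_le_sum fun i hi => hK (i / G) 1 (hi1 i hi)
  have h7 : ∑ i ∈ range (G + 1), (1024 * (C : ℝ) ^ 2 + 12) / (ε / 4) ^ 4 =
      (G + 1) * ((1024 * C ^ 2 + 12) / (ε / 4) ^ 4) := by
    rw [sum_const, card_range, nsmul_eq_mul]; push_cast; ring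
  rw [h7] at h5 h6
  have h8 : ((G : ℝ) + 1) * ((1024 * C ^ 2 + 12) / (ε / 4) ^ 4) ≤
      6 / ε * ((1024 * C ^ 2 + 12) / (ε / 4) ^ 4) := mul_le_mul_of_nonneg_right hG2 (by positivity)
  have h9 : 6 / ε * ((1024 * (C : ℝ) ^ 2 + 12) / (ε / 4) ^ 4) + 6 / ε * ((1024 * C ^ 2 + 12) / (ε / 4) ^ 4)
      = 12 * 256 * (1024 * C ^ 2 + 12) / ε ^ 5 := by
    field_simp
    ring
  linarith

lemma cnt_grow (b : ℕ) (y α β : ℝ) {n n' : ℕ} (h : n ≤ n') :
    cnt b y α β n ≤ cnt b y α β n' ∧ cnt b y α β n' ≤ cnt b y α β n + (n' - n) := by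
  unfold cnt
  constructor
  · apply card_le_card
    intro k hk
    rw [mem_filter, mem_range] at hk ⊢
    exact ⟨by omega, hk.2⟩
  · have hsub : ((range n').filter fun k => α ≤ Int.fract (y * (b : ℝ) ^ k) ∧
        Int.fract (y * (b : ℝ) ^ k) < β) ⊆
        ((range n).filter fun k => α ≤ Int.fract (y * (b : ℝ) ^ k) ∧
        Int.fract (y * (b : ℝ) ^ k) < β) ∪ Ico n n' := by
      intro k hk
      rw [mem_filter, mem_range] at hk
      rw [mem_union, mem_filter, mem_range, mem_Ico]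
      by_cases h1 : k < n
      · exact Or.inl ⟨h1, hk.2⟩
      · exact Or.inr ⟨by omega, hk.1⟩
    refine (card_le_card hsub).trans ((card_union_le _ _).trans ?_)
    rw [Nat.card_Ico]

lemma disc_near (b : ℕ) (y : ℝ) (ε : ℝ) {n n' : ℕ} (h : n ≤ n') (hε : 0 < ε)
    (hn : ((n' : ℝ) - n) ≤ ε / 2 * n) (hd : Disc b y n (ε / 2)) : Disc b y n' ε := by
  intro α β h0 h1 h2
  have h3 := hd α β h0 h1 h2
  obtain ⟨h4, h5⟩ := cnt_grow b y α β h
  have h4' : (cnt b y α β n : ℝ) ≤ cnt b y α β n' := by exact_mod_cast h4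
  have h5' : (cnt b y α β n' : ℝ) ≤ cnt b y α β n + (n' - n) := by
    have : ((cnt b y α β n' : ℕ) : ℝ) ≤ ((cnt b y α β n + (n' - n) : ℕ) : ℝ) := by exact_mod_cast h5
    rwa [Nat.cast_add, Nat.cast_sub h] at this
  have hnn : (n : ℝ) ≤ n' := by exact_mod_cast h
  have h6 : (β - α) * n ≤ (β - α) * n' := mul_le_mul_of_nonneg_left hnn (by linarith)
  have h7 : (β - α) * n' ≤ (β - α) * n + (n' - n) := by nlinarith
  have h8 : ε * n ≤ ε * n' := mul_le_mul_of_nonneg_left hnn hε.le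
  rw [abs_le] at h3 ⊢
  constructor <;> linarith [h3.1, h3.2]

/-- **Few exceptional translates for a window of scales.** -/
theorem windows (b : ℕ) (hb2 : 2 ≤ b) (P : Finset ℕ) (hP : ∀ p ∈ P, p.Prime ∧ ¬ p ∣ b) :
    ∃ K : ℝ, 0 < K ∧ ∀ (ξ : ℝ) (m N t : ℕ) (ε : ℝ), 0 < m → m.primeFactors ⊆ P → m ≤ N → 0 < ε →
      (Set.ncard {j : ℕ | j < m ∧ ∃ n, N ≤ n ∧ n ≤ 2 ^ t * N ∧
        ¬ Disc b (ξ + j / m) n ε} : ℝ) ≤ K * (t + 1) / ε ^ 6 := by
  classical
  obtain ⟨K, hK, h⟩ := exceptional b hb2 P hP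
  refine ⟨192 * K, by positivity, fun ξ m N t ε hm hmP hN hε => ?_⟩
  have hset : {j : ℕ | j < m ∧ ∃ n, N ≤ n ∧ n ≤ 2 ^ t * N ∧ ¬ Disc b (ξ + j / m) n ε} =
      ((range m).filter fun j : ℕ => ∃ n, N ≤ n ∧ n ≤ 2 ^ t * N ∧
        ¬ Disc b (ξ + j / m) n ε : Finset ℕ) := by
    ext j; simp
  rw [hset, Set.ncard_coe_finset]
  rcases le_or_gt 1 ε with h1 | h1
  · have : ((range m).filter fun j : ℕ => ∃ n, N ≤ n ∧ n ≤ 2 ^ t * N ∧
        ¬ Disc b (ξ + j / m) n ε) = ∅ := by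
      rw [filter_eq_empty_iff]
      rintro j _ ⟨n, _, _, h2⟩
      exact h2 (disc_of_large b _ n ε h1)
    rw [this, card_empty, Nat.cast_zero]
    positivity
  have hNpos : 0 < N := lt_of_lt_of_le hm hN
  have hNR : (0 : ℝ) < N := by exact_mod_cast hNpos
  -- one dyadic window
  have hone : ∀ N' : ℕ, m ≤ N' → (((range m).filter fun j : ℕ => ∃ n, N' ≤ n ∧ n ≤ 2 * N' ∧
        ¬ Disc b (ξ + j / m) n ε).card : ℝ) ≤ 192 * K / ε ^ 6 := by
    intro N' hN'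
    have hN'pos : 0 < N' := lt_of_lt_of_le hm hN'
    have hN'R : (0 : ℝ) < N' := by exact_mod_cast hN'pos
    obtain ⟨s, hs⟩ : ∃ s : ℕ, s = ⌊ε * N' / 4⌋₊ + 1 := ⟨_, rfl⟩
    have hs1 : ε * N' / 4 < s := by
      rw [hs]; push_cast; exact Nat.lt_floor_add_one _
    have hs2 : (s : ℝ) ≤ ε * N' / 4 + 1 := by
      rw [hs]; push_cast; linarith [Nat.floor_le (by positivity : 0 ≤ ε * N' / 4)]
    have hspos : 0 < s := by omega
    obtain ⟨I, hI⟩ : ∃ I : ℕ, I = N' / s + 1 := ⟨_, rfl⟩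
    have hIR : (I : ℝ) ≤ 6 / ε := by
      rw [hI]; push_cast
      have hsR : (0 : ℝ) < s := by exact_mod_cast hspos
      have h2 : ((N' / s : ℕ) : ℝ) ≤ N' / s := Nat.cast_div_le
      have h3 : (N' : ℝ) / s ≤ 4 / ε := by
        rw [div_le_div_iff₀ hsR hε]; nlinarith
      have h4 : (1 : ℝ) ≤ 1 / ε := by rw [le_div_iff₀ hε]; linarith
      have : (6 : ℝ) / ε = 4 / ε + 1 / ε + 1 / ε := by ring
      linarith
    have hsub : ((range m).filter fun j : ℕ => ∃ n, N' ≤ n ∧ n ≤ 2 * N' ∧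
        ¬ Disc b (ξ + j / m) n ε) ⊆ (range I).biUnion fun i =>
        (range m).filter fun j : ℕ => ¬ Disc b (ξ + j / m) (N' + i * s) (ε / 2) := by
      intro j hj
      rw [mem_filter] at hj
      obtain ⟨hj1, n, hn1, hn2, hn3⟩ := hj
      rw [mem_biUnion]
      refine ⟨(n - N') / s, ?_, ?_⟩
      · rw [mem_range, hI]
        have : (n - N') / s ≤ N' / s := Nat.div_le_div_right (by omega)
        omega
      · rw [mem_filter]
        refine ⟨hj1, fun hbal => hn3 ?_⟩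
        have h5 : (n - N') / s * s ≤ n - N' := Nat.div_mul_le_self _ _
        have h6 : n - N' < (n - N') / s * s + s := Nat.lt_div_mul_add hspos
        have h7 : N' + (n - N') / s * s ≤ n := by omega
        apply disc_near b _ ε h7 hε _ hbal
        have h8 : n + 1 ≤ N' + (n - N') / s * s + s := by omega
        have h9 : (n : ℝ) + 1 ≤ ((N' + (n - N') / s * s : ℕ) : ℝ) + s := by exact_mod_cast h8
        have h10 : (N' : ℝ) ≤ ((N' + (n - N') / s * s : ℕ) : ℝ) := by exact_mod_cast Nat.le_add_right _ _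
        nlinarith
    have h2 := (card_le_card hsub).trans card_biUnion_le
    have h3 : (((range m).filter fun j : ℕ => ∃ n, N' ≤ n ∧ n ≤ 2 * N' ∧
        ¬ Disc b (ξ + j / m) n ε).card : ℝ) ≤
        ((∑ i ∈ range I, ((range m).filter fun j : ℕ =>
          ¬ Disc b (ξ + j / m) (N' + i * s) (ε / 2)).card : ℕ) : ℝ) := by
      exact_mod_cast h2
    refine h3.trans ?_
    push_cast
    calc ∑ i ∈ range I, (((range m).filter fun j : ℕ =>
          ¬ Disc b (ξ + j / m) (N' + i * s) (ε / 2)).card : ℝ)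
        ≤ ∑ i ∈ range I, K / (ε / 2) ^ 5 := by
          refine sum_le_sum fun i _ => ?_
          have h4 := h ξ m (N' + i * s) (ε / 2) hm hmP (hN'.trans (Nat.le_add_right _ _)) (by positivity)
          have hset' : {j : ℕ | j < m ∧ ¬ Disc b (ξ + j / m) (N' + i * s) (ε / 2)} =
              ((range m).filter fun j : ℕ => ¬ Disc b (ξ + j / m) (N' + i * s) (ε / 2) : Finset ℕ) := by
            ext j; simp
          rw [hset', Set.ncard_coe_finset] at h4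
          exact h4
      _ = I * (K / (ε / 2) ^ 5) := by rw [sum_const, card_range, nsmul_eq_mul]
      _ ≤ 6 / ε * (K / (ε / 2) ^ 5) := mul_le_mul_of_nonneg_right hIR (by positivity)
      _ = 192 * K / ε ^ 6 := by field_simp; ring
  have hsub : ((range m).filter fun j : ℕ => ∃ n, N ≤ n ∧ n ≤ 2 ^ t * N ∧
        ¬ Disc b (ξ + j / m) n ε) ⊆ (range (t + 1)).biUnion fun i =>
        (range m).filter fun j : ℕ => ∃ n, 2 ^ i * N ≤ n ∧ n ≤ 2 * (2 ^ i * N) ∧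
          ¬ Disc b (ξ + j / m) n ε := by
    intro j hj
    rw [mem_filter] at hj
    obtain ⟨hj1, n, hn1, hn2, hn3⟩ := hj
    have hex : ∃ i, n ≤ 2 * (2 ^ i * N) := by
      refine ⟨t, hn2.trans ?_⟩
      omega
    obtain ⟨i, hi1, hi2⟩ : ∃ i, n ≤ 2 * (2 ^ i * N) ∧ ∀ i' < i, ¬ n ≤ 2 * (2 ^ i' * N) :=
      ⟨Nat.find hex, Nat.find_spec hex, fun i' h => Nat.find_min hex h⟩
    rw [mem_biUnion]
    refine ⟨i, ?_, ?_⟩
    · rw [mem_range]
      by_contra hcon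
      exact hi2 t (by omega) (hn2.trans (by omega))
    · rw [mem_filter]
      refine ⟨hj1, n, ?_, hi1, hn3⟩
      rcases Nat.eq_zero_or_pos i with rfl | hpos
      · simpa using hn1
      · have := hi2 (i - 1) (by omega)
        have e : 2 ^ i * N = 2 * (2 ^ (i - 1) * N) := by
          obtain ⟨i', rfl⟩ : ∃ i', i = i' + 1 := ⟨i - 1, by omega⟩
          rw [Nat.add_sub_cancel, pow_succ]; ring
        omega
  have h2 := (card_le_card hsub).trans card_biUnion_le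
  have h3 : (((range m).filter fun j : ℕ => ∃ n, N ≤ n ∧ n ≤ 2 ^ t * N ∧
        ¬ Disc b (ξ + j / m) n ε).card : ℝ) ≤
      ((∑ i ∈ range (t + 1), ((range m).filter fun j : ℕ => ∃ n, 2 ^ i * N ≤ n ∧
        n ≤ 2 * (2 ^ i * N) ∧ ¬ Disc b (ξ + j / m) n ε).card : ℕ) : ℝ) := by
    exact_mod_cast h2
  refine h3.trans ?_
  push_cast
  calc ∑ i ∈ range (t + 1), (((range m).filter fun j : ℕ => ∃ n, 2 ^ i * N ≤ n ∧
        n ≤ 2 * (2 ^ i * N) ∧ ¬ Disc b (ξ + j / m) n ε).card : ℝ)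
      ≤ ∑ i ∈ range (t + 1), 192 * K / ε ^ 6 := by
        refine sum_le_sum fun i _ => hone (2 ^ i * N) (hN.trans ?_)
        exact Nat.le_mul_of_pos_left N (by positivity)
    _ = 192 * K * (t + 1) / ε ^ 6 := by
        rw [sum_const, card_range, nsmul_eq_mul]; push_cast; ring

lemma disc_add_int (b : ℕ) (y : ℝ) (z : ℤ) (n : ℕ) (ε : ℝ) :
    Disc b (y + z) n ε ↔ Disc b y n ε := by
  have h : ∀ α β, cnt b (y + z) α β n = cnt b y α β n := by
    intro α β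
    unfold cnt
    congr 1
    apply filter_congr
    intro k _
    have e : (y + z) * (b : ℝ) ^ k = y * (b : ℝ) ^ k + ((z * (b : ℤ) ^ k : ℤ) : ℝ) := by
      push_cast; ring
    rw [e, Int.fract_add_intCast]
  unfold Disc
  simp only [h]

/-- Few exceptional translates, with a rational factor. -/
theorem windows_mul (b : ℕ) (hb2 : 2 ≤ b) (P : Finset ℕ) (hP : ∀ p ∈ P, p.Prime ∧ ¬ p ∣ b)
    (ρ : ℚ) (hρ : ρ ≠ 0) :
    ∃ K : ℝ, 0 < K ∧ ∀ (ξ : ℝ) (m N t : ℕ) (ε : ℝ), 0 < m → m.primeFactors ⊆ P → m ≤ N → 0 < ε →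
      (Set.ncard {j : ℕ | j < m ∧ ∃ n, N ≤ n ∧ n ≤ 2 ^ t * N ∧
        ¬ Disc b (ξ + ρ * (j / m)) n ε} : ℝ) ≤ K * (t + 1) / ε ^ 6 := by
  classical
  obtain ⟨K, hK, h⟩ := windows b hb2 P hP
  obtain ⟨u, hu⟩ : ∃ u : ℤ, u = ρ.num := ⟨_, rfl⟩
  obtain ⟨d, hd⟩ : ∃ d : ℕ, d = ρ.den := ⟨_, rfl⟩
  have hd0 : 0 < d := by rw [hd]; exact ρ.den_pos
  have hu0 : u ≠ 0 := by rw [hu]; exact Rat.num_ne_zero.2 hρ
  have hρR : (ρ : ℝ) = u / d := by rw [hu, hd]; exact Rat.cast_def ρ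
  have hU : 1 ≤ |u| := Int.one_le_abs hu0
  have hUR : (0 : ℝ) < (2 * |u| : ℤ) := by exact_mod_cast (by omega : 0 < 2 * |u|)
  refine ⟨d * (2 * |u| : ℤ) * K, by positivity, fun ξ m N t ε hm hmP hN hε => ?_⟩
  obtain ⟨Q, hQ⟩ : ∃ Q : ℝ → Prop, Q = fun x => ∃ n, N ≤ n ∧ n ≤ 2 ^ t * N ∧ ¬ Disc b x n ε :=
    ⟨_, rfl⟩
  have hQint : ∀ (x : ℝ) (z : ℤ), Q (x + z) ↔ Q x := by
    intro x z
    rw [hQ]
    simp only [disc_add_int]
  have hmR : (0 : ℝ) < m := by exact_mod_cast hm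
  have hdR : (0 : ℝ) < d := by exact_mod_cast hd0
  have hset : {j : ℕ | j < m ∧ ∃ n, N ≤ n ∧ n ≤ 2 ^ t * N ∧ ¬ Disc b (ξ + ρ * (j / m)) n ε} =
      ((range m).filter fun j : ℕ => Q (ξ + ρ * (j / m)) : Finset ℕ) := by
    ext j; rw [hQ]; simp
  rw [hset, Set.ncard_coe_finset]
  obtain ⟨ξ', hξ'⟩ : ∃ ξ' : ℕ → ℝ, ξ' = fun j₀ : ℕ => ξ + u * j₀ / (d * m) := ⟨_, rfl⟩
  obtain ⟨E, hE⟩ : ∃ E : ℕ → Finset ℕ, E = fun j₀ =>
    (range m).filter fun y : ℕ => Q (ξ' j₀ + y / m) := ⟨_, rfl⟩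
  have hEcard : ∀ j₀, ((E j₀).card : ℝ) ≤ K * (t + 1) / ε ^ 6 := by
    intro j₀
    have h1 := h (ξ' j₀) m N t ε hm hmP hN hε
    have hset' : {j : ℕ | j < m ∧ ∃ n, N ≤ n ∧ n ≤ 2 ^ t * N ∧
        ¬ Disc b (ξ' j₀ + j / m) n ε} = (E j₀ : Finset ℕ) := by
      ext j; rw [hE, hQ]; simp
    rw [hset', Set.ncard_coe_finset] at h1
    exact h1
  have hmZ : (0 : ℤ) < (m : ℤ) := by exact_mod_cast hm
  have hsub : ((range m).filter fun j : ℕ => Q (ξ + ρ * (j / m))) ⊆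
      (range d).biUnion fun j₀ => ((range m).filter fun j : ℕ =>
        Q (ξ + ρ * (j / m)) ∧ j % d = j₀) := by
    intro j hj
    rw [mem_filter] at hj
    rw [mem_biUnion]
    refine ⟨j % d, mem_range.2 (Nat.mod_lt _ hd0), ?_⟩
    rw [mem_filter]
    exact ⟨hj.1, hj.2, rfl⟩
  have hfib : ∀ j₀ ∈ range d, (((range m).filter fun j : ℕ =>
        Q (ξ + ρ * (j / m)) ∧ j % d = j₀).card : ℝ) ≤
        (2 * |u| : ℤ) * (K * (t + 1) / ε ^ 6) := by
    intro j₀ _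
    have hcard : ((range m).filter fun j : ℕ =>
        Q (ξ + ρ * (j / m)) ∧ j % d = j₀).card ≤ (E j₀ ×ˢ Ico (-|u|) |u|).card := by
      apply card_le_card_of_injOn
        (fun j : ℕ => (((u * ((j / d : ℕ) : ℤ)) % (m : ℤ)).toNat,
          (u * ((j / d : ℕ) : ℤ)) / (m : ℤ)))
      · intro j hj
        rw [mem_coe, mem_filter, mem_range] at hj
        obtain ⟨hj1, hj2, hj3⟩ := hj
        obtain ⟨j', hj'⟩ : ∃ j' : ℕ, j' = j / d := ⟨_, rfl⟩
        have hj'lt : j' < m := by rw [hj']; exact lt_of_le_of_lt (Nat.div_le_self _ _) hj1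
        obtain ⟨k, hk⟩ : ∃ k : ℤ, k = (u * (j' : ℤ)) / (m : ℤ) := ⟨_, rfl⟩
        obtain ⟨y, hy⟩ : ∃ y : ℤ, y = (u * (j' : ℤ)) % (m : ℤ) := ⟨_, rfl⟩
        have hy0 : 0 ≤ y := by rw [hy]; exact Int.emod_nonneg _ hmZ.ne'
        have hy1 : y < (m : ℤ) := by rw [hy]; exact Int.emod_lt_of_pos _ hmZ
        have hyk : u * (j' : ℤ) = (m : ℤ) * k + y := by
          rw [hk, hy]; exact (Int.mul_ediv_add_emod _ _).symm
        rw [mem_coe, mem_product]
        simp only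
        rw [← hj', ← hk, ← hy]
        constructor
        · rw [hE]
          simp only [mem_filter, mem_range]
          constructor
          · have : (y.toNat : ℤ) < (m : ℤ) := by rw [Int.toNat_of_nonneg hy0]; exact hy1
            exact_mod_cast this
          · have e : ξ + ρ * (j / m) = (ξ' j₀ + (y.toNat : ℝ) / m) + ((k : ℤ) : ℝ) := by
              have h1 : ((y.toNat : ℕ) : ℝ) = ((y : ℤ) : ℝ) := by
                exact_mod_cast Int.toNat_of_nonneg hy0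
              have h2 : (u : ℝ) * j' = (m : ℝ) * k + y := by exact_mod_cast hyk
              have h3 : (j : ℝ) = j₀ + d * j' := by
                have := Nat.mod_add_div j d
                rw [hj3, ← hj'] at this
                exact_mod_cast this.symm
              rw [h1, hξ', hρR, h3]
              simp only
              field_simp
              linear_combination (d : ℝ) * h2
            rw [e, hQint] at hj2
            exact hj2
        · rw [mem_Ico]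
          have hj'Z : (j' : ℤ) < (m : ℤ) := by exact_mod_cast hj'lt
          have hj'0 : (0 : ℤ) ≤ j' := by positivity
          have hau : |u * (j' : ℤ)| = |u| * j' := by rw [abs_mul, abs_of_nonneg hj'0]
          have h4 : |u| * (j' : ℤ) < |u| * (m : ℤ) := mul_lt_mul_of_pos_left hj'Z (by omega)
          have h5 := abs_le.1 (le_of_eq hau)
          constructor
          · rw [hk]
            apply Int.le_ediv_of_mul_le hmZ
            linarith [h5.1]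
          · rw [hk]
            apply Int.ediv_lt_of_lt_mul hmZ
            linarith [h5.2]
      · intro j hj j2 hj2 heq
        rw [mem_coe, mem_filter, mem_range] at hj hj2
        simp only [Prod.mk.injEq] at heq
        obtain ⟨h1, h2⟩ := heq
        have h3 : (u * ((j / d : ℕ) : ℤ)) % (m : ℤ) = (u * ((j2 / d : ℕ) : ℤ)) % (m : ℤ) := by
          have h4 := congrArg (fun x : ℕ => (x : ℤ)) h1
          rwa [Int.toNat_of_nonneg (Int.emod_nonneg _ hmZ.ne'),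
            Int.toNat_of_nonneg (Int.emod_nonneg _ hmZ.ne')] at h4
        have h5 : u * ((j / d : ℕ) : ℤ) = u * ((j2 / d : ℕ) : ℤ) := by
          rw [← Int.mul_ediv_add_emod (u * ((j / d : ℕ) : ℤ)) (m : ℤ),
            ← Int.mul_ediv_add_emod (u * ((j2 / d : ℕ) : ℤ)) (m : ℤ), h2, h3]
        have h6 : ((j / d : ℕ) : ℤ) = ((j2 / d : ℕ) : ℤ) := mul_left_cancel₀ hu0 h5
        have h7 : j / d = j2 / d := by exact_mod_cast h6
        rw [← Nat.mod_add_div j d, ← Nat.mod_add_div j2 d, hj.2.2, hj2.2.2, h7]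
    rw [card_product, Int.card_Ico] at hcard
    have h8 : (|u| - -|u|).toNat = (2 * |u|).toNat := by congr 1; ring
    rw [h8] at hcard
    have h9 : (((2 * |u|).toNat : ℕ) : ℝ) = ((2 * |u| : ℤ) : ℝ) := by
      exact_mod_cast Int.toNat_of_nonneg (by omega : 0 ≤ 2 * |u|)
    calc (((range m).filter fun j : ℕ => Q (ξ + ρ * (j / m)) ∧ j % d = j₀).card : ℝ)
        ≤ (((E j₀).card * (2 * |u|).toNat : ℕ) : ℝ) := by exact_mod_cast hcard
      _ = (2 * |u| : ℤ) * (E j₀).card := by push_cast [← h9]; ring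
      _ ≤ (2 * |u| : ℤ) * (K * (t + 1) / ε ^ 6) :=
          mul_le_mul_of_nonneg_left (hEcard j₀) hUR.le
  have h10 : (((range m).filter fun j : ℕ => Q (ξ + ρ * (j / m))).card : ℝ) ≤
      ((∑ j₀ ∈ range d, ((range m).filter fun j : ℕ =>
        Q (ξ + ρ * (j / m)) ∧ j % d = j₀).card : ℕ) : ℝ) := by
    exact_mod_cast (card_le_card hsub).trans card_biUnion_le
  refine h10.trans ?_
  push_cast
  calc _ ≤ ∑ j₀ ∈ range d, ((2 * |u| : ℤ) : ℝ) * (K * (t + 1) / ε ^ 6) := sum_le_sum hfib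
    _ = _ := by
        rw [sum_const, card_range, nsmul_eq_mul]
        push_cast
        ring

end Pool.Agent.V7H7.TR
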