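import Pool.Agent.V7H7.TR.Disc

set_option autoImplicit false

/-! # Finite families, infinitely many translates, weighted densities -/

namespace Pool.Agent.V7H7.TR

open Finset

/-- **Finite families of numbers and finitely many bases.** -/
theorem main_finite {ι : Type} [Fintype ι] (ρ : ι → ℚ) (hρ : ∀ i, ρ i ≠ 0) (S : Finset ℕ)
    (hS : ∀ b ∈ S, 2 ≤ b) (P : Finset ℕ) (hP : ∀ p ∈ P, p.Prime ∧ ∀ b ∈ S, ¬ p ∣ b) :
    ∃ K : ℝ, 0 < K ∧ ∀ (ξ : ι → ℝ) (m N t : ℕ) (ε : ℝ), 0 < m → m.primeFactors ⊆ P → m ≤ N →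
      0 < ε → (Set.ncard {j : ℕ | j < m ∧ ∃ n, N ≤ n ∧ n ≤ 2 ^ t * N ∧ ∃ i, ∃ b ∈ S,
        ¬ Disc b (ξ i + ρ i * (j / m)) n ε} : ℝ) ≤ K * (t + 1) / ε ^ 6 := by
  classical
  have hex : ∀ (i : ι) (b : ℕ), ∃ K : ℝ, 0 < K ∧ (b ∈ S → ∀ (ξ : ℝ) (m N t : ℕ) (ε : ℝ), 0 < m →
      m.primeFactors ⊆ P → m ≤ N → 0 < ε → (Set.ncard {j : ℕ | j < m ∧ ∃ n, N ≤ n ∧
        n ≤ 2 ^ t * N ∧ ¬ Disc b (ξ + ρ i * (j / m)) n ε} : ℝ) ≤ K * (t + 1) / ε ^ 6) := by
    intro i b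
    by_cases hb : b ∈ S
    · obtain ⟨K, hK, h⟩ := windows_mul b (hS b hb) P (fun p hp => ⟨(hP p hp).1, (hP p hp).2 b hb⟩)
        (ρ i) (hρ i)
      exact ⟨K, hK, fun _ => h⟩
    · exact ⟨1, one_pos, fun h => absurd h hb⟩
  choose K hK h using hex
  refine ⟨∑ i, ∑ b ∈ S, K i b + 1, ?_, fun ξ m N t ε hm hmP hN hε => ?_⟩
  · have : 0 ≤ ∑ i, ∑ b ∈ S, K i b := sum_nonneg fun i _ => sum_nonneg fun b _ => (hK i b).le
    linarith
  have hset : {j : ℕ | j < m ∧ ∃ n, N ≤ n ∧ n ≤ 2 ^ t * N ∧ ∃ i, ∃ b ∈ S,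
        ¬ Disc b (ξ i + ρ i * (j / m)) n ε} =
      (((univ : Finset ι).biUnion fun i => S.biUnion fun b => (range m).filter fun j : ℕ =>
        ∃ n, N ≤ n ∧ n ≤ 2 ^ t * N ∧ ¬ Disc b (ξ i + ρ i * (j / m)) n ε : Finset ℕ) : Set ℕ) := by
    ext j
    simp only [Set.mem_ofPred_eq, coe_biUnion, coe_filter, Set.mem_iUnion, mem_coe, mem_univ,
      mem_range, exists_prop, true_and]
    constructor
    · rintro ⟨h1, n, h2, h3, i, b, h4, h5⟩
      exact ⟨i, b, h4, h1, n, h2, h3, h5⟩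
    · rintro ⟨i, b, h4, h1, n, h2, h3, h5⟩
      exact ⟨h1, n, h2, h3, i, b, h4, h5⟩
  rw [hset, Set.ncard_coe_finset]
  have h1 : ((((univ : Finset ι).biUnion fun i => S.biUnion fun b => (range m).filter fun j : ℕ =>
        ∃ n, N ≤ n ∧ n ≤ 2 ^ t * N ∧ ¬ Disc b (ξ i + ρ i * (j / m)) n ε).card : ℕ) : ℝ) ≤
      ((∑ i : ι, ∑ b ∈ S, ((range m).filter fun j : ℕ =>
        ∃ n, N ≤ n ∧ n ≤ 2 ^ t * N ∧ ¬ Disc b (ξ i + ρ i * (j / m)) n ε).card : ℕ) : ℝ) := by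
    exact_mod_cast card_biUnion_le.trans (sum_le_sum fun i _ => card_biUnion_le)
  refine h1.trans ?_
  push_cast
  have h2 : ∀ i : ι, ∀ b ∈ S, (((range m).filter fun j : ℕ =>
        ∃ n, N ≤ n ∧ n ≤ 2 ^ t * N ∧ ¬ Disc b (ξ i + ρ i * (j / m)) n ε).card : ℝ) ≤
      K i b * ((t + 1) / ε ^ 6) := by
    intro i b hb
    have h3 := h i b hb (ξ i) m N t ε hm hmP hN hε
    have hset' : {j : ℕ | j < m ∧ ∃ n, N ≤ n ∧ n ≤ 2 ^ t * N ∧ ¬ Disc b (ξ i + ρ i * (j / m)) n ε} =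
        ((range m).filter fun j : ℕ => ∃ n, N ≤ n ∧ n ≤ 2 ^ t * N ∧
          ¬ Disc b (ξ i + ρ i * (j / m)) n ε : Finset ℕ) := by
      ext j; simp
    rw [hset', Set.ncard_coe_finset] at h3
    rw [← mul_div_assoc]
    exact h3
  have ht : (0 : ℝ) ≤ (t + 1) / ε ^ 6 := by positivity
  calc _ ≤ ∑ i : ι, ∑ b ∈ S, K i b * ((t + 1) / ε ^ 6) :=
        sum_le_sum fun i _ => sum_le_sum fun b hb => h2 i b hb
    _ = (∑ i : ι, ∑ b ∈ S, K i b) * ((t + 1) / ε ^ 6) := by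
        rw [sum_mul]; refine sum_congr rfl fun i _ => ?_; rw [sum_mul]
    _ ≤ (∑ i : ι, ∑ b ∈ S, K i b + 1) * ((t + 1) / ε ^ 6) :=
        mul_le_mul_of_nonneg_right (by linarith) ht
    _ = _ := by rw [mul_div_assoc]

/-- The rational numbers of `[0, 1)` whose denominators are composed of primes of `P`. -/
def QP (P : Finset ℕ) : Set ℚ := {q | 0 ≤ q ∧ q < 1 ∧ q.den.primeFactors ⊆ P}

lemma exists_den (P : Finset ℕ) (F : Finset ℚ) (hF : ∀ q ∈ F, q ∈ QP P) :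
    ∃ m : ℕ, 0 < m ∧ m.primeFactors ⊆ P ∧ ∀ q ∈ F, ∃ j : ℕ, j < m ∧ q = j / m := by
  classical
  refine ⟨∏ q ∈ F, q.den, ?_, ?_, ?_⟩
  · exact prod_pos fun q _ => q.den_pos
  · intro p hp
    have hpp := Nat.prime_of_mem_primeFactors hp
    have hdvd := Nat.dvd_of_mem_primeFactors hp
    obtain ⟨q, hq, hpq⟩ := (hpp.prime.dvd_finsetProd_iff _).1 hdvd
    exact (hF q hq).2.2 (Nat.mem_primeFactors.2 ⟨hpp, hpq, q.den_ne_zero⟩)
  · intro q hq
    obtain ⟨c, hc⟩ := dvd_prod_of_mem (fun q : ℚ => q.den) hq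
    obtain ⟨h0, h1, _⟩ := hF q hq
    have hdpos : (0 : ℚ) < q.den := by exact_mod_cast q.den_pos
    have hM : 0 < ∏ q ∈ F, q.den := prod_pos fun q _ => q.den_pos
    have hcpos : 0 < c := by
      rcases Nat.eq_zero_or_pos c with h | h
      · exfalso; rw [hc, h, mul_zero] at hM; exact absurd hM (lt_irrefl _)
      · exact h
    have hcQ : (0 : ℚ) < c := by exact_mod_cast hcpos
    have hnum : ((q.num.toNat : ℕ) : ℤ) = q.num := Int.toNat_of_nonneg (Rat.num_nonneg.2 h0)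
    have hnumQ : ((q.num.toNat : ℕ) : ℚ) = q.num := by exact_mod_cast hnum
    have hq' : q * q.den = q.num := Rat.mul_den_eq_num q
    refine ⟨q.num.toNat * c, ?_, ?_⟩
    · have h2 : ((q.num.toNat * c : ℕ) : ℚ) < ((∏ q ∈ F, q.den : ℕ) : ℚ) := by
        rw [hc]
        push_cast
        rw [hnumQ, ← hq']
        have : q * q.den < 1 * q.den := mul_lt_mul_of_pos_right h1 hdpos
        nlinarith
      exact_mod_cast h2
    · rw [hc]
      push_cast
      rw [hnumQ, ← hq']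
      field_simp

/-- passage to all rational numbers with denominators composed of the primes of `P` -/
lemma limit_principle (P : Finset ℕ) (Bad : ℚ → ℕ → Prop) (B : ℝ)
    (h : ∀ m N : ℕ, 0 < m → m.primeFactors ⊆ P → m ≤ N →
      (Set.ncard {j : ℕ | j < m ∧ Bad (j / m) N} : ℝ) ≤ B) :
    {q : ℚ | q ∈ QP P ∧ ∃ X₀, ∀ X ≥ X₀, Bad q X}.Finite ∧
      (Set.ncard {q : ℚ | q ∈ QP P ∧ ∃ X₀, ∀ X ≥ X₀, Bad q X} : ℝ) ≤ B := by
  classical
  have key : ∀ F : Finset ℚ, (∀ q ∈ F, q ∈ {q : ℚ | q ∈ QP P ∧ ∃ X₀, ∀ X ≥ X₀, Bad q X}) →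
      (F.card : ℝ) ≤ B := by
    intro F hF
    obtain ⟨m, hm, hmP, hj⟩ := exists_den P F (fun q hq => (hF q hq).1)
    have hX : ∀ q : ℚ, ∃ X₀ : ℕ, q ∈ F → ∀ X ≥ X₀, Bad q X := by
      intro q
      by_cases hq : q ∈ F
      · obtain ⟨X₀, h1⟩ := (hF q hq).2
        exact ⟨X₀, fun _ => h1⟩
      · exact ⟨0, fun h1 => absurd h1 hq⟩
    choose X₀ hX₀ using hX
    have hj' : ∀ q : ℚ, ∃ j : ℕ, q ∈ F → j < m ∧ q = j / m := by
      intro q
      by_cases hq : q ∈ F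
      · obtain ⟨j, h1⟩ := hj q hq
        exact ⟨j, fun _ => h1⟩
      · exact ⟨0, fun h1 => absurd h1 hq⟩
    choose j hj1 using hj'
    obtain ⟨N, hN⟩ : ∃ N : ℕ, N = max m (F.sup X₀) := ⟨_, rfl⟩
    have h2 := h m N hm hmP (by rw [hN]; exact le_max_left _ _)
    have hset : {j : ℕ | j < m ∧ Bad (j / m) N} =
        ((range m).filter fun j : ℕ => Bad (j / m) N : Finset ℕ) := by
      ext j; simp
    rw [hset, Set.ncard_coe_finset] at h2
    refine le_trans ?_ h2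
    have h3 : F.card ≤ ((range m).filter fun j : ℕ => Bad (j / m) N).card := by
      apply card_le_card_of_injOn j
      · intro q hq
        rw [mem_coe] at hq
        rw [mem_coe, mem_filter, mem_range]
        refine ⟨(hj1 q hq).1, ?_⟩
        rw [← (hj1 q hq).2]
        apply hX₀ q hq
        rw [hN]
        exact (le_sup (f := X₀) hq).trans (le_max_right _ _)
      · intro q hq q' hq' heq
        rw [mem_coe] at hq hq'
        rw [(hj1 q hq).2, (hj1 q' hq').2, heq]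
    exact_mod_cast h3
  have hfin : {q : ℚ | q ∈ QP P ∧ ∃ X₀, ∀ X ≥ X₀, Bad q X}.Finite := by
    by_contra hinf
    obtain ⟨F, hF, hcard⟩ := Set.Infinite.exists_subset_card_eq hinf (⌊B⌋₊ + 1)
    have h1 := key F (fun q hq => hF hq)
    rw [hcard] at h1
    push_cast at h1
    have := Nat.lt_floor_add_one B
    linarith
  refine ⟨hfin, ?_⟩
  have h1 := key hfin.toFinset (fun q hq => hfin.mem_toFinset.1 hq)
  rwa [← Set.ncard_eq_toFinset_card _ hfin] at h1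

/-- passage to weighted densities -/
lemma density_principle (P : Finset ℕ) (Bad : ℚ → ℕ → Prop) (B : ℝ)
    (h : ∀ m n : ℕ, 0 < m → m.primeFactors ⊆ P → m ≤ n →
      (Set.ncard {j : ℕ | j < m ∧ Bad (j / m) n} : ℝ) ≤ B)
    (ω : ℕ → ℝ) (hω : ∀ n, 0 ≤ ω n) (hω' : ¬ Summable ω) (η : ℝ) (hη : 0 < η) (c : ℚ → ℕ → ℝ)
    (hc : ∀ q n, (Bad q n → c q n = ω n) ∧ (¬ Bad q n → c q n = 0)) :
    {q : ℚ | q ∈ QP P ∧ ∃ X₀, ∀ X ≥ X₀, η * ∑ n ∈ range X, ω n < ∑ n ∈ range X, c q n}.Finite ∧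
      (Set.ncard {q : ℚ | q ∈ QP P ∧ ∃ X₀, ∀ X ≥ X₀,
        η * ∑ n ∈ range X, ω n < ∑ n ∈ range X, c q n} : ℝ) ≤ B / η := by
  classical
  have htend := (not_summable_iff_tendsto_nat_atTop_of_nonneg hω).1 hω'
  have key : ∀ F : Finset ℚ, (∀ q ∈ F, q ∈ {q : ℚ | q ∈ QP P ∧ ∃ X₀, ∀ X ≥ X₀,
      η * ∑ n ∈ range X, ω n < ∑ n ∈ range X, c q n}) → (F.card : ℝ) ≤ B / η := by
    intro F hF
    obtain ⟨m, hm, hmP, hj⟩ := exists_den P F (fun q hq => (hF q hq).1)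
    have hX : ∀ q : ℚ, ∃ X₀ : ℕ, q ∈ F → ∀ X ≥ X₀,
        η * ∑ n ∈ range X, ω n < ∑ n ∈ range X, c q n := by
      intro q
      by_cases hq : q ∈ F
      · obtain ⟨X₀, h1⟩ := (hF q hq).2
        exact ⟨X₀, fun _ => h1⟩
      · exact ⟨0, fun h1 => absurd h1 hq⟩
    choose X₀ hX₀ using hX
    have hj' : ∀ q : ℚ, ∃ j : ℕ, q ∈ F → j < m ∧ q = j / m := by
      intro q
      by_cases hq : q ∈ F
      · obtain ⟨j, h1⟩ := hj q hq
        exact ⟨j, fun _ => h1⟩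
      · exact ⟨0, fun h1 => absurd h1 hq⟩
    choose j hj1 using hj'
    -- the number of bad elements of `F` at a scale `n ≥ m`
    have hbad : ∀ n, m ≤ n → ((F.filter fun q => Bad q n).card : ℝ) ≤ B := by
      intro n hn
      have h2 := h m n hm hmP hn
      have hset : {j : ℕ | j < m ∧ Bad (j / m) n} =
          ((range m).filter fun j : ℕ => Bad (j / m) n : Finset ℕ) := by
        ext j; simp
      rw [hset, Set.ncard_coe_finset] at h2
      refine le_trans ?_ h2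
      have h3 : (F.filter fun q => Bad q n).card ≤
          ((range m).filter fun j : ℕ => Bad (j / m) n).card := by
        apply card_le_card_of_injOn j
        · intro q hq
          rw [mem_coe, mem_filter] at hq
          rw [mem_coe, mem_filter, mem_range]
          refine ⟨(hj1 q hq.1).1, ?_⟩
          rw [← (hj1 q hq.1).2]
          exact hq.2
        · intro q hq q' hq' heq
          rw [mem_coe, mem_filter] at hq hq'
          rw [(hj1 q hq.1).2, (hj1 q' hq'.1).2, heq]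
      exact_mod_cast h3
    have hcbad : ∀ n, ∑ q ∈ F, c q n = ((F.filter fun q => Bad q n).card : ℝ) * ω n := by
      intro n
      rw [card_filter]
      push_cast
      rw [sum_mul]
      refine sum_congr rfl fun q _ => ?_
      by_cases hb : Bad q n
      · rw [(hc q n).1 hb, if_pos hb, one_mul]
      · rw [(hc q n).2 hb, if_neg hb, zero_mul]
    -- the sum over `F`
    have hmain : ∀ X, max m (F.sup X₀) ≤ X →
        ((F.card : ℝ) * η - B) * ∑ n ∈ range X, ω n ≤ (F.card : ℝ) * ∑ n ∈ range m, ω n := by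
      intro X hXX
      have h1 : (F.card : ℝ) * (η * ∑ n ∈ range X, ω n) ≤ ∑ q ∈ F, ∑ n ∈ range X, c q n := by
        rw [← nsmul_eq_mul, ← sum_const]
        refine sum_le_sum fun q hq => ?_
        refine (hX₀ q hq X ?_).le
        exact (le_sup (f := X₀) hq).trans ((le_max_right _ _).trans hXX)
      rw [sum_comm] at h1
      have h2 : ∑ n ∈ range X, ∑ q ∈ F, c q n ≤
          (F.card : ℝ) * ∑ n ∈ range m, ω n + B * ∑ n ∈ range X, ω n := by
        have hmX : m ≤ X := (le_max_left _ _).trans hXX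
        have hB0 : 0 ≤ B := le_trans (by positivity) (hbad m le_rfl)
        have h3 : ∑ n ∈ range X, ∑ q ∈ F, c q n =
            ∑ n ∈ range m, ∑ q ∈ F, c q n + ∑ n ∈ Ico m X, ∑ q ∈ F, c q n :=
          (sum_range_add_sum_Ico _ hmX).symm
        have h4 : ∑ n ∈ range m, ∑ q ∈ F, c q n ≤ (F.card : ℝ) * ∑ n ∈ range m, ω n := by
          rw [mul_sum]
          refine sum_le_sum fun n _ => ?_
          rw [hcbad]
          apply mul_le_mul_of_nonneg_right _ (hω n)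
          exact_mod_cast card_filter_le _ _
        have h5 : ∑ n ∈ Ico m X, ∑ q ∈ F, c q n ≤ B * ∑ n ∈ Ico m X, ω n := by
          rw [mul_sum]
          refine sum_le_sum fun n hn => ?_
          rw [hcbad]
          exact mul_le_mul_of_nonneg_right (hbad n (mem_Ico.1 hn).1) (hω n)
        have h6 : ∑ n ∈ Ico m X, ω n ≤ ∑ n ∈ range X, ω n := by
          rw [← sum_range_add_sum_Ico ω hmX]
          linarith [sum_nonneg (s := range m) fun n _ => hω n]
        have h7 : B * ∑ n ∈ Ico m X, ω n ≤ B * ∑ n ∈ range X, ω n :=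
          mul_le_mul_of_nonneg_left h6 hB0
        linarith
      linarith
    by_contra hcon
    rw [not_le, div_lt_iff₀ hη] at hcon
    obtain ⟨Y, hY⟩ := (htend.eventually_gt_atTop
      ((F.card : ℝ) * (∑ n ∈ range m, ω n) / ((F.card : ℝ) * η - B))).exists_forall_of_atTop
    have h1 := hmain (max Y (max m (F.sup X₀))) (le_max_right _ _)
    have h2 := hY (max Y (max m (F.sup X₀))) (le_max_left _ _)
    rw [div_lt_iff₀ (by linarith)] at h2
    linarith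
  have hfin : {q : ℚ | q ∈ QP P ∧ ∃ X₀, ∀ X ≥ X₀,
      η * ∑ n ∈ range X, ω n < ∑ n ∈ range X, c q n}.Finite := by
    by_contra hinf
    obtain ⟨F, hF, hcard⟩ := Set.Infinite.exists_subset_card_eq hinf (⌊B / η⌋₊ + 1)
    have h1 := key F (fun q hq => hF hq)
    rw [hcard] at h1
    push_cast at h1
    have := Nat.lt_floor_add_one (B / η)
    linarith
  refine ⟨hfin, ?_⟩
  have h1 := key hfin.toFinset (fun q hq => hfin.mem_toFinset.1 hq)
  rwa [← Set.ncard_eq_toFinset_card _ hfin] at h1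

end Pool.Agent.V7H7.TR
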