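import Pool.Agent.V7H7.TR.Orbit

set_option autoImplicit false

/-! # The second moment of smoothed counts, and a bound for the exceptional translates -/

namespace Pool.Agent.V7H7.TR

open Finset ZMod Pool.Agent.V7H7.RT

/-- the number of `k < n` with `b ^ k y` in `[α, β)` modulo one -/
noncomputable def cnt (b : ℕ) (y α β : ℝ) (n : ℕ) : ℕ :=
  ((range n).filter fun k => α ≤ Int.fract (y * (b : ℝ) ^ k) ∧ Int.fract (y * (b : ℝ) ^ k) < β).card

/-- the smoothed indicator function of an interval of residues -/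
noncomputable def phi {m : ℕ} (A : ZMod m) (W V : ℕ) (u : ZMod m) : ℝ :=
  1 / (W : ℝ) * ∑ s ∈ range W, ∑ v ∈ range V, if u + (s : ZMod m) = A + (v : ZMod m) then (1 : ℝ) else 0

section
variable {m : ℕ} [NeZero m]

omit [NeZero m] in
lemma phi_nonneg (A : ZMod m) (W V : ℕ) (u : ZMod m) : 0 ≤ phi A W V u := by
  unfold phi
  apply mul_nonneg (by positivity)
  refine sum_nonneg fun s _ => sum_nonneg fun v _ => ?_
  split_ifs <;> norm_num

omit [NeZero m] in
lemma one_le_phi (A : ZMod m) (W V B v₀ : ℕ) (hW : 0 < W) (hv : v₀ < B) (hV : B + W ≤ V)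
    (u : ZMod m) (hu : u = A + (v₀ : ZMod m)) : 1 ≤ phi A W V u := by
  unfold phi
  have hWR : (0 : ℝ) < W := by exact_mod_cast hW
  have h1 : (W : ℝ) ≤ ∑ s ∈ range W, ∑ v ∈ range V,
      if u + (s : ZMod m) = A + (v : ZMod m) then (1 : ℝ) else 0 := by
    calc (W : ℝ) = ∑ s ∈ range W, (1 : ℝ) := by simp
      _ ≤ _ := by
        refine sum_le_sum fun s hs => ?_
        rw [mem_range] at hs
        have hmem : v₀ + s ∈ range V := mem_range.2 (by omega)
        refine le_trans ?_ (single_le_sum (f := fun v : ℕ =>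
          if u + (s : ZMod m) = A + (v : ZMod m) then (1 : ℝ) else 0) (fun v _ => ?_) hmem)
        · rw [if_pos]
          rw [hu]; push_cast; ring
        · split_ifs <;> norm_num
  calc (1 : ℝ) = 1 / W * W := by field_simp
    _ ≤ _ := mul_le_mul_of_nonneg_left h1 (by positivity)

lemma sum_phi (A : ZMod m) (W V : ℕ) (hW : 0 < W) : ∑ u : ZMod m, phi A W V u = V := by
  unfold phi
  have hWR : (W : ℝ) ≠ 0 := by exact_mod_cast hW.ne'
  rw [← mul_sum, sum_comm]
  have h1 : ∀ s ∈ range W, ∑ u : ZMod m, ∑ v ∈ range V,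
      (if u + (s : ZMod m) = A + (v : ZMod m) then (1 : ℝ) else 0) = V := by
    intro s _
    rw [sum_comm]
    have h2 : ∀ v ∈ range V, ∑ u : ZMod m,
        (if u + (s : ZMod m) = A + (v : ZMod m) then (1 : ℝ) else 0) = 1 := by
      intro v _
      have h3 : ∀ u : ZMod m, (u + (s : ZMod m) = A + (v : ZMod m)) ↔ (u = A + v - s) := by
        intro u; constructor
        · intro h; rw [← h]; ring
        · intro h; rw [h]; ring
      simp only [h3]
      rw [sum_ite_eq' univ (A + (v : ZMod m) - s) (fun _ => (1 : ℝ))]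
      simp
    rw [sum_congr rfl h2]
    simp
  rw [sum_congr rfl h1, sum_const, card_range, nsmul_eq_mul]
  field_simp

lemma geom_norm (x : ZMod m) (hx : x ≠ 0) (W : ℕ) :
    ‖∑ s ∈ range W, (stdAddChar (N := m)) x ^ s‖ ≤ (m : ℝ) / 2 * wt x := by
  set z := (stdAddChar (N := m)) x with hz
  have hz1 : ‖z‖ = 1 := norm_char x
  have hne : 1 - z ≠ 0 := by
    intro h
    apply hx
    apply injective_stdAddChar (N := m)
    rw [AddChar.map_zero_eq_one]
    linear_combination -h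
  have hpos : 0 < ‖1 - z‖ := norm_pos_iff.2 hne
  refine le_trans ?_ (norm_one_sub_char hx)
  rw [le_div_iff₀ hpos, ← norm_mul, mul_comm, mul_neg_geom_sum]
  refine (norm_sub_le _ _).trans ?_
  rw [norm_pow, hz1]
  norm_num

lemma dft_phi (A : ZMod m) (W V : ℕ) (x : ZMod m) (hx : x ≠ 0) :
    ‖∑ u : ZMod m, ((phi A W V u : ℝ) : ℂ) * (stdAddChar (N := m)) (-(x * u))‖ ≤
      1 / (W : ℝ) * ((m : ℝ) / 2 * wt x) ^ 2 := by
  have h1 : ∑ u : ZMod m, ((phi A W V u : ℝ) : ℂ) * (stdAddChar (N := m)) (-(x * u)) =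
      (1 / (W : ℂ)) * ((stdAddChar (N := m)) (-(x * A)) *
        ((∑ s ∈ range W, (stdAddChar (N := m)) x ^ s) *
          ∑ v ∈ range V, (stdAddChar (N := m)) (-x) ^ v)) := by
    have h2 : ∀ u : ZMod m, ((phi A W V u : ℝ) : ℂ) * (stdAddChar (N := m)) (-(x * u)) =
        1 / (W : ℂ) * ∑ s ∈ range W, ∑ v ∈ range V,
          (if u = A + v - s then (stdAddChar (N := m)) (-(x * u)) else 0) := by
      intro u
      unfold phi
      push_cast
      rw [mul_assoc, sum_mul]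
      congr 1
      refine sum_congr rfl fun s _ => ?_
      rw [sum_mul]
      refine sum_congr rfl fun v _ => ?_
      have h3 : (u + (s : ZMod m) = A + (v : ZMod m)) ↔ (u = A + v - s) := by
        constructor
        · intro h; rw [← h]; ring
        · intro h; rw [h]; ring
      by_cases h : u = A + v - s
      · rw [if_pos h, if_pos (h3.2 h), Complex.ofReal_one, one_mul]
      · rw [if_neg h, if_neg (fun h4 => h (h3.1 h4)), Complex.ofReal_zero, zero_mul]
    simp only [h2]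
    rw [← mul_sum]
    congr 1
    rw [sum_comm, sum_mul_sum, mul_sum]
    refine sum_congr rfl fun s _ => ?_
    rw [sum_comm, mul_sum]
    refine sum_congr rfl fun v _ => ?_
    rw [sum_ite_eq' univ (A + (v : ZMod m) - s)]
    simp only [mem_univ, if_true]
    rw [← AddChar.map_nsmul_eq_pow, ← AddChar.map_nsmul_eq_pow, ← AddChar.map_add_eq_mul,
      ← AddChar.map_add_eq_mul]
    congr 1
    rw [nsmul_eq_mul, nsmul_eq_mul]
    ring
  rw [h1, norm_mul, norm_mul, norm_mul, norm_char, one_mul]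
  have hW : ‖(1 / (W : ℂ))‖ = 1 / (W : ℝ) := by simp
  rw [hW]
  apply mul_le_mul_of_nonneg_left _ (by positivity)
  rw [sq]
  have h5 := geom_norm x hx W
  have h6 := geom_norm (-x) (neg_ne_zero.2 hx) V
  rw [wt_neg hx] at h6
  exact mul_le_mul h5 h6 (norm_nonneg _) (by have := wt_nonneg x; positivity)

/-- the smoothed count for the translate with index `j` -/
noncomputable def tot {m : ℕ} (b n : ℕ) (M : ℕ → ZMod m) (A : ZMod m) (W V : ℕ) (j : ZMod m) : ℝ :=
  ∑ k ∈ range n, phi A W V (M k + (b : ZMod m) ^ k * j)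

lemma sum_shift {R : Type*} [AddCommMonoid R] {b : ℕ} (hco : Nat.Coprime b m) (N : ℕ) (M : ZMod m)
    (F : ZMod m → R) :
    ∑ j : ZMod m, F (M + (b : ZMod m) ^ N * j) = ∑ u : ZMod m, F u := by
  let e : ZMod m ≃ ZMod m := (Units.mulLeft ((ub hco) ^ N)).trans (Equiv.addLeft M)
  rw [← Equiv.sum_comp e F]
  refine sum_congr rfl fun j _ => ?_
  congr 1

lemma sum_tot {b : ℕ} (hco : Nat.Coprime b m) (n : ℕ) (M : ℕ → ZMod m) (A : ZMod m) (W V : ℕ)
    (hW : 0 < W) : ∑ j : ZMod m, tot b n M A W V j = n * V := by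
  unfold tot
  rw [sum_comm]
  have h : ∀ k ∈ range n, ∑ j : ZMod m, phi A W V (M k + (b : ZMod m) ^ k * j) = V := by
    intro k _
    rw [sum_shift hco k (M k) (phi A W V), sum_phi A W V hW]
  rw [sum_congr rfl h, sum_const, card_range, nsmul_eq_mul]

/-- The second moment. -/
theorem second_moment {b : ℕ} (hco : Nat.Coprime b m) (hb2 : 2 ≤ b) (C : ℕ) (hC : 0 < C)
    (hCm : ∀ m' d : ℕ, 0 < m' → 0 < d → m' ∣ m → m' ∣ b ^ d - 1 → m' ≤ C * d)
    (n : ℕ) (hn : m ≤ n) (M : ℕ → ZMod m) (A : ZMod m) (W V : ℕ) (hW : 0 < W) :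
    ∑ j : ZMod m, (tot b n M A W V j - n * V / m) ^ 2 ≤ (4 * m * C * n / W) ^ 2 := by
  have hm : 0 < m := Nat.pos_of_ne_zero (NeZero.ne m)
  have hmR : (0 : ℝ) < m := by exact_mod_cast hm
  have hWR : (0 : ℝ) < W := by exact_mod_cast hW
  obtain ⟨μ, hμ⟩ : ∃ μ : ℝ, μ = n * V / m := ⟨_, rfl⟩
  rw [← hμ]
  have hpar := parseval (m := m) (fun j => ((tot b n M A W V j - μ : ℝ) : ℂ))
  have hbound : ∀ f : ZMod m, ‖∑ j : ZMod m, ((tot b n M A W V j - μ : ℝ) : ℂ) *
      (stdAddChar (N := m)) (-(f * j))‖ ^ 2 ≤ (4 * m * C * n / W) ^ 2 := by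
    intro f
    apply pow_le_pow_left₀ (norm_nonneg _)
    by_cases hf : f = 0
    · have h0 : ∑ j : ZMod m, ((tot b n M A W V j - μ : ℝ) : ℂ) *
          (stdAddChar (N := m)) (-(f * j)) = 0 := by
        rw [hf]
        simp only [zero_mul, neg_zero, AddChar.map_zero_eq_one, mul_one]
        rw [← Complex.ofReal_sum, sum_sub_distrib, sum_tot hco n M A W V hW, sum_const, card_univ,
          ZMod.card, nsmul_eq_mul, hμ]
        have : (n : ℝ) * V - m * (n * V / m) = 0 := by field_simp; ring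
        rw [this]
        simp
      rw [h0, norm_zero]
      positivity
    · have h0 : ∑ j : ZMod m, (stdAddChar (N := m)) (-(f * j)) = 0 := by
        have h := AddChar.sum_mulShift (-f) (isPrimitive_stdAddChar m)
        rw [if_neg (neg_ne_zero.2 hf)] at h
        rw [Nat.cast_zero] at h
        rw [← h]
        exact sum_congr rfl fun j _ => by congr 1; ring
      have h1 : ∑ j : ZMod m, ((tot b n M A W V j - μ : ℝ) : ℂ) *
          (stdAddChar (N := m)) (-(f * j)) =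
          ∑ j : ZMod m, ((tot b n M A W V j : ℝ) : ℂ) * (stdAddChar (N := m)) (-(f * j)) := by
        push_cast
        simp only [sub_mul]
        rw [sum_sub_distrib, ← mul_sum, h0, mul_zero, sub_zero]
      have h2 : ∑ j : ZMod m, ((tot b n M A W V j : ℝ) : ℂ) * (stdAddChar (N := m)) (-(f * j)) =
          ∑ k ∈ range n, ∑ j : ZMod m, ((phi A W V (M k + (b : ZMod m) ^ k * j) : ℝ) : ℂ) *
              (stdAddChar (N := m)) (-(f * j)) := by
        unfold tot
        rw [sum_comm]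
        refine sum_congr rfl fun j _ => ?_
        push_cast
        rw [sum_mul]
      rw [h1, h2]
      have h3 : ∀ k ∈ range n, ‖∑ j : ZMod m, ((phi A W V (M k + (b : ZMod m) ^ k * j) : ℝ) : ℂ) *
              (stdAddChar (N := m)) (-(f * j))‖ ≤ (m : ℝ) ^ 2 / (4 * W) * wt (orb hco f k) ^ 2 := by
        intro k _
        obtain ⟨x, hx⟩ : ∃ x, x = orb hco f k := ⟨_, rfl⟩
        have hx0 : x ≠ 0 := by rw [hx]; exact orb_ne hco f hf k
        have h4 : ∑ j : ZMod m, ((phi A W V (M k + (b : ZMod m) ^ k * j) : ℝ) : ℂ) *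
              (stdAddChar (N := m)) (-(f * j)) =
            ∑ u : ZMod m, ((phi A W V u : ℝ) : ℂ) * (stdAddChar (N := m)) (-(x * (u - M k))) := by
          rw [← sum_shift hco k (M k) (fun u => ((phi A W V u : ℝ) : ℂ) *
            (stdAddChar (N := m)) (-(x * (u - M k))))]
          refine sum_congr rfl fun j _ => ?_
          congr 2
          have h5 := orb_mul hco f k
          rw [hx]
          linear_combination j * h5
        have h5 : ∑ u : ZMod m, ((phi A W V u : ℝ) : ℂ) * (stdAddChar (N := m)) (-(x * (u - M k))) =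
            (stdAddChar (N := m)) (x * M k) *
              ∑ u : ZMod m, ((phi A W V u : ℝ) : ℂ) * (stdAddChar (N := m)) (-(x * u)) := by
          rw [mul_sum]
          refine sum_congr rfl fun u _ => ?_
          have e : -(x * (u - M k)) = x * M k + -(x * u) := by ring
          rw [e, AddChar.map_add_eq_mul]
          ring
        rw [h4, h5, norm_mul, norm_char, one_mul, ← hx]
        refine (dft_phi A W V x hx0).trans (le_of_eq ?_)
        field_simp
        ring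
      calc _ ≤ ∑ k ∈ range n, ‖∑ j : ZMod m, ((phi A W V (M k + (b : ZMod m) ^ k * j) : ℝ) : ℂ) *
              (stdAddChar (N := m)) (-(f * j))‖ := norm_sum_le _ _
        _ ≤ ∑ k ∈ range n, (m : ℝ) ^ 2 / (4 * W) * wt (orb hco f k) ^ 2 := sum_le_sum h3
        _ = (m : ℝ) ^ 2 / (4 * W) * ∑ k ∈ range n, wt (orb hco f k) ^ 2 := by rw [mul_sum]
        _ ≤ (m : ℝ) ^ 2 / (4 * W) * (16 * C * n / m) :=
            mul_le_mul_of_nonneg_left (orbit_sum hco hb2 C hC hCm n hn f hf) (by positivity)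
        _ = 4 * m * C * n / W := by field_simp; ring
  have hnorm : ∀ j : ZMod m, ‖((tot b n M A W V j - μ : ℝ) : ℂ)‖ ^ 2 = (tot b n M A W V j - μ) ^ 2 := by
    intro j
    rw [Complex.norm_real, Real.norm_eq_abs, sq_abs]
  simp only [hnorm] at hpar
  have hsum : (m : ℝ) * ∑ j : ZMod m, (tot b n M A W V j - μ) ^ 2 ≤ (m : ℝ) * (4 * m * C * n / W) ^ 2 := by
    rw [← hpar]
    calc _ ≤ ∑ f : ZMod m, (4 * m * C * n / W : ℝ) ^ 2 := sum_le_sum fun f _ => hbound f
      _ = (m : ℝ) * (4 * m * C * n / W) ^ 2 := by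
          rw [sum_const, card_univ, ZMod.card, nsmul_eq_mul]
  exact le_of_mul_le_mul_left hsum hmR

/-- The count is at most the smoothed count. -/
lemma cnt_le_tot {b : ℕ} (ξ α β : ℝ) (j n W : ℕ) (hW : 0 < W) :
    (cnt b (ξ + j / m) α β n : ℝ) ≤
      tot b n (fun k => ((⌊ξ * (b : ℝ) ^ k * m⌋ : ℤ) : ZMod m)) ((⌊α * m⌋ : ℤ) : ZMod m) W
        (⌈(β - α) * m⌉₊ + 1 + W) (j : ZMod m) := by
  have hm : 0 < m := Nat.pos_of_ne_zero (NeZero.ne m)
  have hmR : (0 : ℝ) < m := by exact_mod_cast hm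
  unfold cnt tot
  rw [card_filter]
  push_cast
  refine sum_le_sum fun k _ => ?_
  split_ifs with h
  · obtain ⟨h1, h2⟩ := h
    obtain ⟨fr, hfr⟩ : ∃ fr, fr = Int.fract ((ξ + j / m) * (b : ℝ) ^ k) := ⟨_, rfl⟩
    rw [← hfr] at h1 h2
    have h3 : ⌊ξ * (b : ℝ) ^ k * m⌋ + (b : ℤ) ^ k * j = ⌊fr * m⌋ + m * ⌊(ξ + j / m) * (b : ℝ) ^ k⌋ := by
      rw [← Int.floor_add_intCast, ← Int.floor_add_intCast]
      congr 1
      push_cast
      rw [hfr, Int.fract]
      field_simp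
      ring
    have h4 : (((⌊ξ * (b : ℝ) ^ k * m⌋ : ℤ) : ZMod m) + (b : ZMod m) ^ k * (j : ZMod m)) =
        ((⌊fr * m⌋ : ℤ) : ZMod m) := by
      have h5 := congrArg (fun z : ℤ => (z : ZMod m)) h3
      push_cast at h5
      rw [h5]
      simp
    have h6 : ⌊α * m⌋ ≤ ⌊fr * m⌋ := Int.floor_le_floor (mul_le_mul_of_nonneg_right h1 hmR.le)
    obtain ⟨v₀, hv₀⟩ : ∃ v₀ : ℕ, (v₀ : ℤ) = ⌊fr * m⌋ - ⌊α * m⌋ :=
      ⟨(⌊fr * m⌋ - ⌊α * m⌋).toNat, Int.toNat_of_nonneg (by omega)⟩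
    have h7 : v₀ < ⌈(β - α) * m⌉₊ + 1 := by
      have h8 : (v₀ : ℝ) = (⌊fr * m⌋ : ℝ) - ⌊α * m⌋ := by exact_mod_cast hv₀
      have h9 := Int.floor_le (fr * m)
      have h10 := Int.lt_floor_add_one (α * m)
      have h11 : fr * m < β * m := mul_lt_mul_of_pos_right h2 hmR
      have h12 := Nat.le_ceil ((β - α) * m)
      have h13 : (v₀ : ℝ) < (⌈(β - α) * m⌉₊ : ℝ) + 1 := by
        rw [h8]; linarith
      exact_mod_cast h13
    apply one_le_phi _ W _ (⌈(β - α) * m⌉₊ + 1) v₀ hW h7 le_rfl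
    rw [h4]
    have h14 : ((v₀ : ℤ) : ZMod m) = ((⌊fr * m⌋ - ⌊α * m⌋ : ℤ) : ZMod m) := by rw [hv₀]
    push_cast at h14
    rw [h14]
    ring
  · exact phi_nonneg _ _ _ _

/-- **Few translates with too many visits to an interval.** -/
theorem upper_count {b : ℕ} (hco : Nat.Coprime b m) (hb2 : 2 ≤ b) (C : ℕ) (hC : 0 < C)
    (hCm : ∀ m' d : ℕ, 0 < m' → 0 < d → m' ∣ m → m' ∣ b ^ d - 1 → m' ≤ C * d)
    (n : ℕ) (hn : m ≤ n) (ξ α β ε : ℝ) (hαβ : α ≤ β) (hε : 0 < ε) (hε1 : ε ≤ 1) :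
    (((range m).filter fun j : ℕ => (β - α + ε) * n < (cnt b (ξ + j / m) α β n : ℝ)).card : ℝ) ≤
      (1024 * C ^ 2 + 12) / ε ^ 4 := by
  have hm : 0 < m := Nat.pos_of_ne_zero (NeZero.ne m)
  have hmR : (0 : ℝ) < m := by exact_mod_cast hm
  have hnR : (0 : ℝ) < n := by exact_mod_cast lt_of_lt_of_le hm hn
  have hε4 : ε ^ 4 ≤ ε := by
    have h1 : ε ^ 3 ≤ 1 := pow_le_one₀ hε.le hε1
    nlinarith
  rcases lt_or_ge (m : ℝ) (12 / ε) with hsmall | hbig
  · have h1 : (((range m).filter fun j : ℕ => (β - α + ε) * n < (cnt b (ξ + j / m) α β n : ℝ)).card : ℝ)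
        ≤ m := by
      have := card_filter_le (range m) fun j : ℕ => (β - α + ε) * n < (cnt b (ξ + j / m) α β n : ℝ)
      rw [card_range] at this
      exact_mod_cast this
    have h2 : (12 : ℝ) / ε ≤ (1024 * C ^ 2 + 12) / ε ^ 4 := by
      rw [div_le_div_iff₀ hε (by positivity)]
      have : (0 : ℝ) ≤ 1024 * C ^ 2 := by positivity
      nlinarith
    linarith
  · obtain ⟨W, hWd⟩ : ∃ W : ℕ, W = ⌊ε * m / 4⌋₊ + 1 := ⟨_, rfl⟩
    have hW0 : 0 < W := by omega
    have hWR : (0 : ℝ) < W := by exact_mod_cast hW0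
    have hW1 : ε * m / 4 < W := by rw [hWd]; push_cast; exact Nat.lt_floor_add_one _
    have hW2 : (W : ℝ) ≤ ε * m / 4 + 1 := by
      rw [hWd]; push_cast; linarith [Nat.floor_le (by positivity : 0 ≤ ε * m / 4)]
    obtain ⟨V, hV⟩ : ∃ V : ℕ, V = ⌈(β - α) * m⌉₊ + 1 + W := ⟨_, rfl⟩
    have hV1 : (V : ℝ) ≤ (β - α) * m + ε / 2 * m := by
      have h1 : (⌈(β - α) * m⌉₊ : ℝ) < (β - α) * m + 1 :=
        Nat.ceil_lt_add_one (mul_nonneg (by linarith) hmR.le)
      have h2 : 12 ≤ ε * m := by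
        rw [div_le_iff₀ hε] at hbig; linarith
      rw [hV]; push_cast
      linarith
    obtain ⟨M, hM⟩ : ∃ M : ℕ → ZMod m, M = fun k => ((⌊ξ * (b : ℝ) ^ k * m⌋ : ℤ) : ZMod m) := ⟨_, rfl⟩
    have hS := second_moment hco hb2 C hC hCm n hn M ((⌊α * m⌋ : ℤ) : ZMod m) W V hW0
    have hmean : (n : ℝ) * V / m ≤ (β - α) * n + ε / 2 * n := by
      rw [div_le_iff₀ hmR]
      have := mul_le_mul_of_nonneg_left hV1 hnR.le
      linarith
    obtain ⟨E, hE⟩ : ∃ E : Finset ℕ, E = (range m).filter fun j : ℕ =>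
        (β - α + ε) * n < (cnt b (ξ + j / m) α β n : ℝ) := ⟨_, rfl⟩
    rw [← hE]
    have hlow : ∀ j ∈ E, (ε * n / 2) ^ 2 ≤
        (tot b n M ((⌊α * m⌋ : ℤ) : ZMod m) W V ((j : ℕ) : ZMod m) - n * V / m) ^ 2 := by
      intro j hj
      rw [hE, mem_filter] at hj
      apply pow_le_pow_left₀ (by positivity)
      have h1 := cnt_le_tot (m := m) (b := b) ξ α β j n W hW0
      rw [← hM, ← hV] at h1
      linarith [hj.2]
    have hsumE : (E.card : ℝ) * (ε * n / 2) ^ 2 ≤ (4 * m * C * n / W) ^ 2 := by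
      calc (E.card : ℝ) * (ε * n / 2) ^ 2 = ∑ j ∈ E, (ε * n / 2) ^ 2 := by
            rw [sum_const, nsmul_eq_mul]
        _ ≤ ∑ j ∈ E, (tot b n M ((⌊α * m⌋ : ℤ) : ZMod m) W V ((j : ℕ) : ZMod m) - n * V / m) ^ 2 :=
            sum_le_sum hlow
        _ = ∑ u ∈ E.image (fun j : ℕ => (j : ZMod m)),
              (tot b n M ((⌊α * m⌋ : ℤ) : ZMod m) W V u - n * V / m) ^ 2 := by
            rw [sum_image]
            intro x hx y hy hxy
            rw [mem_coe, hE, mem_filter, mem_range] at hx hy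
            have h1 := congrArg ZMod.val hxy
            simp only at h1
            rwa [ZMod.val_cast_of_lt hx.1, ZMod.val_cast_of_lt hy.1] at h1
        _ ≤ ∑ u : ZMod m, (tot b n M ((⌊α * m⌋ : ℤ) : ZMod m) W V u - n * V / m) ^ 2 :=
            sum_le_sum_of_subset_of_nonneg (subset_univ _) fun _ _ _ => sq_nonneg _
        _ ≤ (4 * m * C * n / W) ^ 2 := hS
    have h5 : 4 * (m : ℝ) * C * n / W ≤ 16 * C * n / ε := by
      rw [div_le_div_iff₀ hWR hε]
      have : (0 : ℝ) ≤ C * n := by positivity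
      nlinarith
    have h6 : (4 * (m : ℝ) * C * n / W) ^ 2 ≤ (16 * C * n / ε) ^ 2 :=
      pow_le_pow_left₀ (by positivity) h5 2
    have h7 : (E.card : ℝ) * (ε * n / 2) ^ 2 ≤ (16 * C * n / ε) ^ 2 := hsumE.trans h6
    have h8 : (E.card : ℝ) * ε ^ 4 ≤ 1024 * C ^ 2 := by
      have h9 : (E.card : ℝ) * (ε * n / 2) ^ 2 * (4 * ε ^ 2 / n ^ 2) ≤
          (16 * C * n / ε) ^ 2 * (4 * ε ^ 2 / n ^ 2) := mul_le_mul_of_nonneg_right h7 (by positivity)
      have e1 : (E.card : ℝ) * (ε * n / 2) ^ 2 * (4 * ε ^ 2 / n ^ 2) = E.card * ε ^ 4 := by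
        field_simp
        ring
      have e2 : (16 * (C : ℝ) * n / ε) ^ 2 * (4 * ε ^ 2 / n ^ 2) = 1024 * C ^ 2 := by
        field_simp
        ring
      rw [e1, e2] at h9
      exact h9
    rw [le_div_iff₀ (by positivity)]
    linarith

end

end Pool.Agent.V7H7.TR
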