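import Pool.Agent.V7H7.RT.Fourier
import Pool.Agent.V7H7.TR.Arith

set_option autoImplicit false

/-! # Backward orbits of the multiplication by `b` modulo `m` -/

namespace Pool.Agent.V7H7.TR

open Finset Pool.Agent.V7H7.RT

variable {m b : ℕ}

/-- The unit of `ZMod m` given by `b`. -/
noncomputable def ub (hco : Nat.Coprime b m) : (ZMod m)ˣ := ZMod.unitOfCoprime b hco

lemma ub_val (hco : Nat.Coprime b m) : ((ub hco : (ZMod m)ˣ) : ZMod m) = b :=
  ZMod.coe_unitOfCoprime _ _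

/-- the points of the backward orbit -/
noncomputable def orb (hco : Nat.Coprime b m) (f : ZMod m) (k : ℕ) : ZMod m :=
  f * (((ub hco)⁻¹ ^ k : (ZMod m)ˣ) : ZMod m)

lemma orb_mul (hco : Nat.Coprime b m) (f : ZMod m) (k : ℕ) :
    orb hco f k * (b : ZMod m) ^ k = f := by
  unfold orb
  rw [← ub_val hco, mul_assoc, ← Units.val_pow_eq_pow_val, ← Units.val_mul, ← mul_pow]
  simp

lemma orb_ne (hco : Nat.Coprime b m) (f : ZMod m) (hf : f ≠ 0) (k : ℕ) :
    orb hco f k ≠ 0 := by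
  intro h
  have := orb_mul hco f k
  rw [h, zero_mul] at this
  exact hf this.symm

lemma orb_dvd [NeZero m] (hco : Nat.Coprime b m) (f : ZMod m) (g : ℕ) (hgm : g ∣ m)
    (hg : g ∣ f.val) (k : ℕ) : g ∣ (orb hco f k).val := by
  have h := orb_mul hco f k
  set x := orb hco f k
  have h1 : ((x.val * b ^ k : ℕ) : ZMod m) = ((f.val : ℕ) : ZMod m) := by
    push_cast
    rw [ZMod.natCast_zmod_val, ZMod.natCast_zmod_val]
    exact h
  have h2 : x.val * b ^ k ≡ f.val [MOD m] := (ZMod.natCast_eq_natCast_iff _ _ _).1 h1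
  have h3 : g ∣ x.val * b ^ k := by
    have h4 : x.val * b ^ k ≡ f.val [MOD g] := h2.of_dvd hgm
    exact (h4.dvd_iff (dvd_refl _)).2 hg
  have h5 : Nat.Coprime g (b ^ k) := (hco.symm.coprime_dvd_left hgm).pow_right k
  exact h5.dvd_of_dvd_mul_right h3

lemma orb_eq [NeZero m] (hco : Nat.Coprime b m) (hb2 : 2 ≤ b) (f : ZMod m)
    {k l : ℕ} (hkl : k ≤ l) (h : orb hco f k = orb hco f l) :
    m / Nat.gcd f.val m ∣ b ^ (l - k) - 1 := by
  have hm : 0 < m := Nat.pos_of_ne_zero (NeZero.ne m)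
  have h1 : f * (b : ZMod m) ^ (l - k) = f := by
    have e1 := orb_mul hco f k
    have e2 := orb_mul hco f l
    rw [← h] at e2
    calc f * (b : ZMod m) ^ (l - k)
        = orb hco f k * (b : ZMod m) ^ k * (b : ZMod m) ^ (l - k) := by rw [e1]
      _ = orb hco f k * (b : ZMod m) ^ l := by
          rw [mul_assoc, ← pow_add, Nat.add_sub_cancel' hkl]
      _ = f := e2
  have hb1 : 1 ≤ b ^ (l - k) := Nat.one_le_pow _ _ (by omega)
  have h2 : ((f.val * (b ^ (l - k) - 1) : ℕ) : ZMod m) = 0 := by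
    push_cast [Nat.cast_sub hb1]
    rw [ZMod.natCast_zmod_val]
    linear_combination h1
  have h3 : m ∣ f.val * (b ^ (l - k) - 1) := (ZMod.natCast_eq_zero_iff _ _).1 h2
  have hg : 0 < Nat.gcd f.val m := Nat.gcd_pos_of_pos_right _ hm
  have h4 : Nat.gcd f.val m * (m / Nat.gcd f.val m) ∣
      Nat.gcd f.val m * ((f.val / Nat.gcd f.val m) * (b ^ (l - k) - 1)) := by
    rw [Nat.mul_div_cancel' (Nat.gcd_dvd_right _ _), ← mul_assoc,
      Nat.mul_div_cancel' (Nat.gcd_dvd_left _ _)]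
    exact h3
  have h5 : m / Nat.gcd f.val m ∣ (f.val / Nat.gcd f.val m) * (b ^ (l - k) - 1) :=
    Nat.dvd_of_mul_dvd_mul_left hg h4
  have h6 : Nat.Coprime (m / Nat.gcd f.val m) (f.val / Nat.gcd f.val m) :=
    (Nat.coprime_div_gcd_div_gcd hg).symm
  exact h6.dvd_of_dvd_mul_left h5

/-- the number of visits to one point -/
lemma card_fiber [NeZero m] (hco : Nat.Coprime b m) (hb2 : 2 ≤ b) (C : ℕ) (hC : 0 < C)
    (hCm : ∀ m' d : ℕ, 0 < m' → 0 < d → m' ∣ m → m' ∣ b ^ d - 1 → m' ≤ C * d)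
    (f : ZMod m) (n : ℕ) (y : ZMod m) :
    ((range n).filter fun k => orb hco f k = y).card ≤ n * C / (m / Nat.gcd f.val m) + 1 := by
  have hm : 0 < m := Nat.pos_of_ne_zero (NeZero.ne m)
  have hg : 0 < Nat.gcd f.val m := Nat.gcd_pos_of_pos_right _ hm
  obtain ⟨m', hm'⟩ : ∃ m', m' = m / Nat.gcd f.val m := ⟨_, rfl⟩
  have hm'0 : 0 < m' := by
    rw [hm']; exact Nat.div_pos (Nat.le_of_dvd hm (Nat.gcd_dvd_right _ _)) hg
  have hm'd : m' ∣ m := by rw [hm']; exact Nat.div_dvd_of_dvd (Nat.gcd_dvd_right _ _)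
  rw [← hm']
  have hinj : Set.InjOn (fun k => k * C / m') ((range n).filter fun k => orb hco f k = y) := by
    have key : ∀ k l : ℕ, k ≤ l → orb hco f k = y → orb hco f l = y →
        k * C / m' = l * C / m' → k = l := by
      intro k l hkl hk hl hdiv
      by_contra hne
      have hlt : k < l := lt_of_le_of_ne hkl hne
      have h1 := orb_eq hco hb2 f hkl (hk.trans hl.symm)
      rw [← hm'] at h1
      have h2 := hCm m' (l - k) hm'0 (by omega) hm'd h1
      have h3 : k * C + m' ≤ l * C := by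
        have h4 : C * (l - k) + k * C = l * C := by
          obtain ⟨e, rfl⟩ := Nat.exists_eq_add_of_lt hlt
          rw [show k + e + 1 - k = e + 1 by omega]; ring
        omega
      have h5 : k * C / m' + 1 ≤ l * C / m' := by
        rw [← Nat.add_div_right _ hm'0]
        exact Nat.div_le_div_right h3
      omega
    intro k hk l hl hdiv
    rw [mem_coe, mem_filter] at hk hl
    rcases le_total k l with h | h
    · exact key k l h hk.2 hl.2 hdiv
    · exact (key l k h hl.2 hk.2 hdiv.symm).symm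
  calc ((range n).filter fun k => orb hco f k = y).card
      = (((range n).filter fun k => orb hco f k = y).image (fun k => k * C / m')).card :=
        (card_image_of_injOn hinj).symm
    _ ≤ (range (n * C / m' + 1)).card := by
        apply card_le_card
        intro t ht
        obtain ⟨k, hk, rfl⟩ := mem_image.1 ht
        rw [mem_filter, mem_range] at hk
        rw [mem_range]
        have : k * C / m' ≤ n * C / m' := Nat.div_le_div_right (Nat.mul_le_mul_right C hk.1.le)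
        omega
    _ = n * C / m' + 1 := card_range _

lemma sum_inv_sq (M : ℕ) : ∑ j ∈ range M, 1 / ((j : ℝ) + 1) ^ 2 ≤ 2 := by
  have key : ∀ M : ℕ, ∑ j ∈ range (M + 1), 1 / ((j : ℝ) + 1) ^ 2 ≤ 2 - 1 / ((M : ℝ) + 1) := by
    intro M
    induction M with
    | zero => norm_num
    | succ M ih =>
      rw [sum_range_succ]
      have h1 : (0 : ℝ) < (M : ℝ) + 1 := by positivity
      have h2 : (0 : ℝ) < (M : ℝ) + 1 + 1 := by positivity
      push_cast
      have h5 : 1 / ((M : ℝ) + 1) - 1 / ((M : ℝ) + 1 + 1) = 1 / (((M : ℝ) + 1) * ((M : ℝ) + 1 + 1)) := by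
        field_simp; ring
      have h6 : 1 / ((M : ℝ) + 1 + 1) ^ 2 ≤ 1 / (((M : ℝ) + 1) * ((M : ℝ) + 1 + 1)) := by
        apply one_div_le_one_div_of_le (by positivity)
        nlinarith
      linarith
  rcases Nat.eq_zero_or_pos M with rfl | hM
  · simp
  · obtain ⟨M', rfl⟩ : ∃ M', M = M' + 1 := ⟨M - 1, by omega⟩
    have h := key M'
    have : (0 : ℝ) < 1 / ((M' : ℝ) + 1) := by positivity
    linarith

lemma sum_inv_sq2 (N : ℕ) (hN : 1 ≤ N) :
    ∑ t ∈ Ico 1 N, (1 / (t : ℝ) ^ 2 + 1 / ((N : ℝ) - t) ^ 2) ≤ 4 := by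
  obtain ⟨M, rfl⟩ : ∃ M, N = M + 1 := ⟨N - 1, by omega⟩
  have hh := sum_inv_sq M
  rw [sum_Ico_eq_sum_range]
  simp only [Nat.add_sub_cancel]
  rw [sum_add_distrib]
  have e1 : ∑ k ∈ range M, 1 / (((1 + k : ℕ) : ℝ)) ^ 2 = ∑ j ∈ range M, 1 / ((j : ℝ) + 1) ^ 2 :=
    sum_congr rfl fun k _ => by push_cast; rw [add_comm]
  have e2 : ∑ k ∈ range M, 1 / (((M + 1 : ℕ) : ℝ) - ((1 + k : ℕ) : ℝ)) ^ 2 =
      ∑ j ∈ range M, 1 / ((j : ℝ) + 1) ^ 2 := by
    rw [← sum_range_reflect]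
    refine sum_congr rfl fun k hk => ?_
    have hk' := mem_range.1 hk
    congr 2
    have h2 : 1 + (M - 1 - k) = M - k := by omega
    rw [h2, Nat.cast_sub hk'.le]
    push_cast; ring
  rw [e1, e2]
  linarith

lemma wt_sq_le [NeZero m] (x : ZMod m) (hx : x ≠ 0) :
    wt x ^ 2 ≤ 2 * (1 / (x.val : ℝ) ^ 2 + 1 / ((m : ℝ) - x.val) ^ 2) := by
  unfold wt
  have h1 : (1 / (x.val : ℝ)) ^ 2 = 1 / (x.val : ℝ) ^ 2 := by rw [div_pow, one_pow]
  have h2 : (1 / ((m : ℝ) - x.val)) ^ 2 = 1 / ((m : ℝ) - x.val) ^ 2 := by rw [div_pow, one_pow]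
  rw [← h1, ← h2]
  nlinarith [sq_nonneg (1 / (x.val : ℝ) - 1 / ((m : ℝ) - x.val))]

/-- the sum of the squared weights over the multiples of a divisor `g` of `m` -/
lemma sum_wt_sq [NeZero m] (g : ℕ) (hg : g ∣ m) (hg0 : 0 < g) :
    ∑ y ∈ (univ : Finset (ZMod m)).filter (fun y => y ≠ 0 ∧ g ∣ y.val), wt y ^ 2 ≤
      8 / (g : ℝ) ^ 2 := by
  have hm : 0 < m := Nat.pos_of_ne_zero (NeZero.ne m)
  have hgR : (0 : ℝ) < g := by exact_mod_cast hg0
  obtain ⟨q, hq⟩ := hg
  have hq0 : 0 < q := by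
    rcases Nat.eq_zero_or_pos q with rfl | h
    · simp at hq; omega
    · exact h
  obtain ⟨G, hG⟩ : ∃ G : ℕ → ℝ, G = fun t : ℕ => 2 * (1 / (t : ℝ) ^ 2 + 1 / ((q : ℝ) - t) ^ 2) / (g : ℝ) ^ 2 :=
    ⟨_, rfl⟩
  have hmem : ∀ y ∈ (univ : Finset (ZMod m)).filter (fun y => y ≠ 0 ∧ g ∣ y.val),
      y.val / g ∈ Ico 1 q ∧ g * (y.val / g) = y.val := by
    intro y hy
    rw [mem_filter] at hy
    have h1 : y.val ≠ 0 := fun h => hy.2.1 ((ZMod.val_eq_zero y).1 h)
    obtain ⟨t, ht⟩ := hy.2.2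
    have h2 : y.val / g = t := by rw [ht]; exact Nat.mul_div_cancel_left t hg0
    refine ⟨?_, by rw [h2, ht]⟩
    rw [h2, mem_Ico]
    constructor
    · rcases Nat.eq_zero_or_pos t with rfl | h
      · rw [Nat.mul_zero] at ht; exact absurd ht h1
      · exact h
    · have h3 : y.val < m := ZMod.val_lt y
      rw [ht] at h3
      have h4 : g * t < g * q := by rw [← hq]; exact h3
      exact Nat.lt_of_mul_lt_mul_left h4
  have h1 : ∑ y ∈ (univ : Finset (ZMod m)).filter (fun y => y ≠ 0 ∧ g ∣ y.val), wt y ^ 2 ≤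
      ∑ y ∈ (univ : Finset (ZMod m)).filter (fun y => y ≠ 0 ∧ g ∣ y.val), G (y.val / g) := by
    refine sum_le_sum fun y hy => ?_
    obtain ⟨h2, h3⟩ := hmem y hy
    rw [mem_Ico] at h2
    refine (wt_sq_le y (mem_filter.1 hy).2.1).trans (le_of_eq ?_)
    rw [hG]
    simp only
    have e1 : (y.val : ℝ) = (g : ℝ) * ((y.val / g : ℕ) : ℝ) := by
      conv_lhs => rw [← h3]
      push_cast; ring
    have e2 : (m : ℝ) = (g : ℝ) * q := by rw [hq]; push_cast; ring
    rw [e2, e1]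
    set t : ℝ := ((y.val / g : ℕ) : ℝ) with ht
    have ht0 : 0 < t := by rw [ht]; exact_mod_cast h2.1
    have ht1 : 0 < (q : ℝ) - t := by
      rw [ht, sub_pos]; exact_mod_cast h2.2
    have e3 : (g : ℝ) * q - (g : ℝ) * t = (g : ℝ) * (q - t) := by ring
    rw [e3]
    field_simp
  have hinj : Set.InjOn (fun y : ZMod m => y.val / g)
      ((univ : Finset (ZMod m)).filter (fun y => y ≠ 0 ∧ g ∣ y.val)) := by
    intro x hx y hy hxy
    have h2 := (hmem x hx).2
    have h3 := (hmem y hy).2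
    apply ZMod.val_injective
    rw [← h2, ← h3]
    exact congrArg (fun t => g * t) hxy
  refine h1.trans ?_
  rw [← sum_image (f := G) hinj]
  calc ∑ t ∈ ((univ : Finset (ZMod m)).filter (fun y => y ≠ 0 ∧ g ∣ y.val)).image
          (fun y : ZMod m => y.val / g), G t
      ≤ ∑ t ∈ Ico 1 q, G t := by
        apply sum_le_sum_of_subset_of_nonneg
        · intro t ht
          obtain ⟨y, hy, rfl⟩ := mem_image.1 ht
          exact (hmem y hy).1
        · intro t _ _
          rw [hG]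
          positivity
    _ = 2 * (∑ t ∈ Ico 1 q, (1 / (t : ℝ) ^ 2 + 1 / ((q : ℝ) - t) ^ 2)) / (g : ℝ) ^ 2 := by
        rw [mul_sum, sum_div, hG]
    _ ≤ 8 / (g : ℝ) ^ 2 := by
        apply div_le_div_of_nonneg_right _ (by positivity)
        have := sum_inv_sq2 q hq0
        linarith

/-- The sum of the squared weights along an orbit. -/
theorem orbit_sum [NeZero m] (hco : Nat.Coprime b m) (hb2 : 2 ≤ b) (C : ℕ) (hC : 0 < C)
    (hCm : ∀ m' d : ℕ, 0 < m' → 0 < d → m' ∣ m → m' ∣ b ^ d - 1 → m' ≤ C * d)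
    (n : ℕ) (hn : m ≤ n) (f : ZMod m) (hf : f ≠ 0) :
    ∑ k ∈ range n, wt (orb hco f k) ^ 2 ≤ 16 * C * n / m := by
  have hm : 0 < m := Nat.pos_of_ne_zero (NeZero.ne m)
  have hmR : (0 : ℝ) < m := by exact_mod_cast hm
  obtain ⟨g, hg⟩ : ∃ g, g = Nat.gcd f.val m := ⟨_, rfl⟩
  have hg0 : 0 < g := by rw [hg]; exact Nat.gcd_pos_of_pos_right _ hm
  have hgR : (1 : ℝ) ≤ g := by exact_mod_cast hg0
  have hgm : g ∣ m := by rw [hg]; exact Nat.gcd_dvd_right _ _
  have hgf : g ∣ f.val := by rw [hg]; exact Nat.gcd_dvd_left _ _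
  obtain ⟨m', hm'⟩ : ∃ m', m' = m / g := ⟨_, rfl⟩
  have hm'0 : 0 < m' := by rw [hm']; exact Nat.div_pos (Nat.le_of_dvd hm hgm) hg0
  have hm'R : (0 : ℝ) < m' := by exact_mod_cast hm'0
  have hmg : (m : ℝ) = m' * g := by
    have : m = m' * g := by rw [hm']; exact (Nat.div_mul_cancel hgm).symm
    exact_mod_cast this
  have hm'n : m' ≤ n := by rw [hm']; exact (Nat.div_le_self _ _).trans hn
  set V := (univ : Finset (ZMod m)).filter (fun y => y ≠ 0 ∧ g ∣ y.val) with hV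
  have hmaps : ∀ k ∈ range n, orb hco f k ∈ V := by
    intro k _
    rw [hV, mem_filter]
    exact ⟨mem_univ _, orb_ne hco f hf k, orb_dvd hco f g hgm hgf k⟩
  rw [← sum_fiberwise_of_maps_to hmaps]
  have hCR : (1 : ℝ) ≤ C := by exact_mod_cast hC
  have hcard : ∀ y : ZMod m, (((range n).filter fun k => orb hco f k = y).card : ℝ) ≤
      2 * n * C / m' := by
    intro y
    have h1 := card_fiber hco hb2 C hC hCm f n y
    rw [← hg, ← hm'] at h1
    have h2 : (((range n).filter fun k => orb hco f k = y).card : ℝ) ≤ ((n * C / m' + 1 : ℕ) : ℝ) := by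
      exact_mod_cast h1
    refine h2.trans ?_
    push_cast
    have h4 : ((n * C / m' : ℕ) : ℝ) ≤ ((n * C : ℕ) : ℝ) / m' := Nat.cast_div_le
    push_cast at h4
    have h5 : (1 : ℝ) ≤ n * C / m' := by
      rw [le_div_iff₀ hm'R, one_mul]
      have : (m' : ℝ) ≤ n := by exact_mod_cast hm'n
      nlinarith
    have : (2 * n * C / m' : ℝ) = n * C / m' + n * C / m' := by ring
    linarith
  calc ∑ y ∈ V, ∑ k ∈ (range n).filter (fun k => orb hco f k = y), wt (orb hco f k) ^ 2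
      = ∑ y ∈ V, (((range n).filter fun k => orb hco f k = y).card : ℝ) * wt y ^ 2 := by
        refine sum_congr rfl fun y _ => ?_
        rw [← nsmul_eq_mul, ← sum_const]
        exact sum_congr rfl fun k hk => by rw [(mem_filter.1 hk).2]
    _ ≤ ∑ y ∈ V, (2 * n * C / m') * wt y ^ 2 :=
        sum_le_sum fun y _ => mul_le_mul_of_nonneg_right (hcard y) (sq_nonneg _)
    _ = (2 * n * C / m') * ∑ y ∈ V, wt y ^ 2 := by rw [mul_sum]
    _ ≤ (2 * n * C / m') * (8 / (g : ℝ) ^ 2) :=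
        mul_le_mul_of_nonneg_left (sum_wt_sq g hgm hg0) (by positivity)
    _ ≤ (2 * n * C / m') * (8 / (g : ℝ)) := by
        apply mul_le_mul_of_nonneg_left _ (by positivity)
        apply div_le_div_of_nonneg_left (by norm_num) (by positivity)
        nlinarith
    _ = 16 * C * n / m := by
        rw [hmg]
        field_simp
        ring

end Pool.Agent.V7H7.TR
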